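import Pool.Agent.helper11.NS.Ring

set_option autoImplicit false

/-!
# The degree map of the star of a face, with an explicit generic vector over a field
-/

namespace Pool.Agent.helper11.NSR

open Finset

variable {n : ℕ} {ι : Type} [Fintype ι] [DecidableEq ι]

/-- The data of a complete simplicial fan (the star of `ρ`) with a generic vector over `K`. -/
structure KFan (n : ℕ) (ι : Type) [Fintype ι] [DecidableEq ι] (K : Type) [Field K] where
  V : ι → Fin n → ℚ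
  ρ : Finset ι
  F : Finset (Finset ι)
  hρ : ∀ Δ ∈ F, ρ ⊆ Δ
  hcard : ∀ Δ ∈ F, Δ.card = n
  hli : ∀ Δ ∈ F, LinearIndependent ℚ (fun i : {i // i ∈ Δ} => V i)
  hwall : ∀ Δ ∈ F, ∀ j ∈ Δ, j ∉ ρ → ∃ j' ∉ Δ, insert j' (Δ.erase j) ∈ F ∧
      (∀ Δ'' ∈ F, Δ.erase j ⊆ Δ'' → Δ'' = Δ ∨ Δ'' = insert j' (Δ.erase j)) ∧
      ∃ ℓ : (Fin n → ℚ) →ₗ[ℚ] ℚ, (∀ i ∈ Δ.erase j, ℓ (V i) = 0) ∧ 0 < ℓ (V j) ∧ ℓ (V j') < 0
  t : Finset ι → ι → K
  ξ : Fin n → K
  ht0 : ∀ Δ ∈ F, ∀ v, v ∉ Δ → t Δ v = 0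
  ht : ∀ Δ ∈ F, ∀ a, ∑ v, t Δ v * (V v a : K) = ξ a
  hξ : ∀ Δ ∈ F, ∀ v ∈ Δ, t Δ v ≠ 0

namespace KFan

variable {K : Type} [Field K] (𝓕 : KFan n ι K)

/-- value of a rational functional at the generic vector -/
def ev (ℓ : (Fin n → ℚ) →ₗ[ℚ] ℚ) : K := ∑ a, ((ℓ (Pi.single a 1) : ℚ) : K) * 𝓕.ξ a

/-- the value of the monomial `α` at the coordinates -/
def mon (Δ : Finset ι) (α : ι → ℕ) : K := ∏ v, 𝓕.t Δ v ^ α v

/-- the denominators -/
noncomputable def den (Δ : Finset ι) : K := (vol 𝓕.V Δ : K) * ∏ v ∈ Δ \ 𝓕.ρ, 𝓕.t Δ v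

/-- the degree map on monomials -/
noncomputable def X (α : ι → ℕ) : K := ∑ Δ ∈ 𝓕.F, 𝓕.mon Δ α / 𝓕.den Δ

theorem mon_add_single (Δ : Finset ι) (α : ι → ℕ) (v : ι) :
    𝓕.mon Δ (α + Pi.single v 1) = 𝓕.t Δ v * 𝓕.mon Δ α := by
  unfold mon
  have h1 : ∀ w, 𝓕.t Δ w ^ (α + (Pi.single v 1 : ι → ℕ)) w =
      𝓕.t Δ w ^ α w * (if w = v then 𝓕.t Δ v else 1) := by
    intro w
    rw [Pi.add_apply, pow_add]
    by_cases h : w = v
    · subst h; rw [Pi.single_eq_same, pow_one, if_pos rfl]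
    · rw [Pi.single_eq_of_ne h, pow_zero, if_neg h]
  rw [Finset.prod_congr rfl fun w _ => h1 w, Finset.prod_mul_distrib, Finset.prod_ite_eq',
    if_pos (Finset.mem_univ v), mul_comm]

theorem mon_eq_zero {Δ : Finset ι} (hΔ : Δ ∈ 𝓕.F) {α : ι → ℕ} {v : ι} (hv : v ∉ Δ)
    (hα : α v ≠ 0) : 𝓕.mon Δ α = 0 := by
  unfold mon
  refine Finset.prod_eq_zero (Finset.mem_univ v) ?_
  rw [𝓕.ht0 Δ hΔ v hv, zero_pow hα]

theorem X_eq_zero_of_forall {α : ι → ℕ} (h : ∀ Δ ∈ 𝓕.F, ∃ v, v ∉ Δ ∧ α v ≠ 0) : 𝓕.X α = 0 := by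
  unfold X
  refine Finset.sum_eq_zero fun Δ hΔ => ?_
  obtain ⟨v, hv, hα⟩ := h Δ hΔ
  rw [𝓕.mon_eq_zero hΔ hv hα, zero_div]

theorem mon_chi (Δ : Finset ι) (S : Finset ι) : 𝓕.mon Δ (Fan.chi S) = ∏ v ∈ S, 𝓕.t Δ v := by
  unfold mon
  rw [← Finset.prod_subset (Finset.subset_univ S)]
  · exact Finset.prod_congr rfl fun v hv => by rw [Fan.chi, if_pos hv, pow_one]
  · intro v _ hv
    rw [Fan.chi, if_neg hv, pow_zero]

theorem t_ne_zero {Δ : Finset ι} (hΔ : Δ ∈ 𝓕.F) {v : ι} (hv : v ∈ Δ) : 𝓕.t Δ v ≠ 0 :=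
  𝓕.hξ Δ hΔ v hv

variable [CharZero K]

theorem ev_eq {Δ : Finset ι} (hΔ : Δ ∈ 𝓕.F) (ℓ : (Fin n → ℚ) →ₗ[ℚ] ℚ) :
    𝓕.ev ℓ = ∑ v, 𝓕.t Δ v * ((ℓ (𝓕.V v) : ℚ) : K) := by
  unfold ev
  have h1 : ∀ a, ((ℓ (Pi.single a 1) : ℚ) : K) * 𝓕.ξ a =
      ∑ v, 𝓕.t Δ v * (((𝓕.V v a * ℓ (Pi.single a 1) : ℚ)) : K) := by
    intro a
    rw [← 𝓕.ht Δ hΔ a, Finset.mul_sum]
    refine Finset.sum_congr rfl fun v _ => ?_
    rw [Rat.cast_mul]
    ring
  rw [Finset.sum_congr rfl fun a _ => h1 a, Finset.sum_comm]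
  refine Finset.sum_congr rfl fun v _ => ?_
  rw [← Finset.mul_sum, ← Rat.cast_sum]
  have h2 : ∑ a, 𝓕.V v a * ℓ (Pi.single a 1) = ℓ (𝓕.V v) := by
    conv_rhs => rw [pi_eq_sum_univ' (𝓕.V v)]
    rw [map_sum]
    refine Finset.sum_congr rfl fun a _ => ?_
    rw [map_smul, smul_eq_mul]
  rw [h2]

/-- multiplication by a linear form -/
theorem lin (ℓ : (Fin n → ℚ) →ₗ[ℚ] ℚ) (α : ι → ℕ) :
    𝓕.ev ℓ * 𝓕.X α = ∑ v, ((ℓ (𝓕.V v) : ℚ) : K) * 𝓕.X (α + Pi.single v 1) := by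
  unfold X
  rw [Finset.mul_sum]
  have h1 : ∀ v, ((ℓ (𝓕.V v) : ℚ) : K) * ∑ Δ ∈ 𝓕.F, 𝓕.mon Δ (α + Pi.single v 1) / 𝓕.den Δ =
      ∑ Δ ∈ 𝓕.F, ((ℓ (𝓕.V v) : ℚ) : K) * (𝓕.t Δ v * 𝓕.mon Δ α / 𝓕.den Δ) := by
    intro v
    rw [Finset.mul_sum]
    exact Finset.sum_congr rfl fun Δ _ => by rw [mon_add_single]
  rw [Finset.sum_congr rfl fun v _ => h1 v, Finset.sum_comm]
  refine Finset.sum_congr rfl fun Δ hΔ => ?_
  rw [𝓕.ev_eq hΔ ℓ, Finset.sum_mul]
  exact Finset.sum_congr rfl fun v _ => by ring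

theorem coord_eq {Δ : Finset ι} (hΔ : Δ ∈ 𝓕.F) {c : ι → ((Fin n → ℚ) →ₗ[ℚ] ℚ)}
    (hc2 : ∀ v ∈ Δ, ∀ w ∈ Δ, c v (𝓕.V w) = if v = w then 1 else 0) {j : ι} (hj : j ∈ Δ) :
    𝓕.ev (c j) = 𝓕.t Δ j := by
  rw [𝓕.ev_eq hΔ, Finset.sum_eq_single j]
  · rw [hc2 j hj j hj, if_pos rfl, Rat.cast_one, mul_one]
  · intro v _ hv
    by_cases hvΔ : v ∈ Δ
    · rw [hc2 j hj v hvΔ, if_neg (Ne.symm hv), Rat.cast_zero, mul_zero]
    · rw [𝓕.ht0 Δ hΔ v hvΔ, zero_mul]
  · intro h; exact absurd (Finset.mem_univ j) h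

/-- walls -/
theorem X_wall {S : Finset ι} (hS : Disjoint S 𝓕.ρ) (hn : S.card + 𝓕.ρ.card + 1 = n) :
    𝓕.X (Fan.chi S) = 0 := by
  by_cases hex : ∃ Δ ∈ 𝓕.F, S ⊆ Δ
  swap
  · push Not at hex
    refine 𝓕.X_eq_zero_of_forall fun Δ hΔ => ?_
    obtain ⟨v, hv, hv'⟩ := Finset.not_subset.1 (hex Δ hΔ)
    exact ⟨v, hv', by rw [Fan.chi, if_pos hv]; exact one_ne_zero⟩
  obtain ⟨Δ, hΔ, hSΔ⟩ := hex
  have hcU : (S ∪ 𝓕.ρ).card = S.card + 𝓕.ρ.card := Finset.card_union_of_disjoint hS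
  have hUΔ : S ∪ 𝓕.ρ ⊆ Δ := Finset.union_subset hSΔ (𝓕.hρ Δ hΔ)
  obtain ⟨j, hj, hjU⟩ : ∃ j ∈ Δ, j ∉ S ∪ 𝓕.ρ := by
    by_contra hcon
    push Not at hcon
    have := Finset.card_le_card (show Δ ⊆ S ∪ 𝓕.ρ from hcon)
    rw [hcU, 𝓕.hcard Δ hΔ] at this
    omega
  have herase : Δ.erase j = S ∪ 𝓕.ρ := by
    symm
    refine Finset.eq_of_subset_of_card_le (fun v hv => Finset.mem_erase.2
      ⟨fun h => hjU (h ▸ hv), hUΔ hv⟩) ?_
    rw [Finset.card_erase_of_mem hj, hcU, 𝓕.hcard Δ hΔ]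
    omega
  have hjρ : j ∉ 𝓕.ρ := fun h => hjU (Finset.mem_union_right _ h)
  obtain ⟨j', hj', hΔ', huniq, ℓ, hℓ0, hℓj, hℓj'⟩ := 𝓕.hwall Δ hΔ j hj hjρ
  set Δ' := insert j' (Δ.erase j) with hΔ'def
  have hne : Δ ≠ Δ' := fun h => hj' (h ▸ Finset.mem_insert_self _ _)
  have hj'U : j' ∉ S ∪ 𝓕.ρ := fun h => hj' (hUΔ h)
  -- the value of one term
  have hterm : ∀ (E : Finset ι) (hE : E ∈ 𝓕.F) (i : ι) (hi : i ∉ S ∪ 𝓕.ρ)
      (hEi : E = insert i (S ∪ 𝓕.ρ)) (hi0 : ℓ (𝓕.V i) ≠ 0),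
      𝓕.mon E (Fan.chi S) / 𝓕.den E = ((ℓ (𝓕.V i) : ℚ) : K) / ((vol 𝓕.V E : K) * 𝓕.ev ℓ) := by
    intro E hE i hi hEi hi0
    have h1 : E \ 𝓕.ρ = insert i S := by
      rw [hEi]
      ext v
      simp only [Finset.mem_sdiff, Finset.mem_insert, Finset.mem_union]
      constructor
      · rintro ⟨h | h | h, h'⟩
        · exact Or.inl h
        · exact Or.inr h
        · exact absurd h h'
      · rintro (h | h)
        · subst h
          exact ⟨Or.inl rfl, fun h' => hi (Finset.mem_union_right _ h')⟩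
        · exact ⟨Or.inr (Or.inl h), fun h' => Finset.disjoint_left.1 hS h h'⟩
    have h2 : 𝓕.ev ℓ = 𝓕.t E i * ((ℓ (𝓕.V i) : ℚ) : K) := by
      rw [𝓕.ev_eq hE, Finset.sum_eq_single i]
      · intro v _ hv
        by_cases hvE : v ∈ E
        · rw [hEi] at hvE
          have := Finset.mem_of_mem_insert_of_ne hvE hv
          rw [hℓ0 v (herase ▸ this), Rat.cast_zero, mul_zero]
        · rw [𝓕.ht0 E hE v hvE, zero_mul]
      · intro h; exact absurd (Finset.mem_univ i) h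
    have hiS : i ∉ S := fun h => hi (Finset.mem_union_left _ h)
    have hti : 𝓕.t E i ≠ 0 := 𝓕.t_ne_zero hE (by rw [hEi]; exact Finset.mem_insert_self _ _)
    have hpS : ∏ v ∈ S, 𝓕.t E v ≠ 0 := Finset.prod_ne_zero_iff.2 fun v hv =>
      𝓕.t_ne_zero hE (by rw [hEi]; exact Finset.mem_insert_of_mem (Finset.mem_union_left _ hv))
    have hvol : (vol 𝓕.V E : K) ≠ 0 :=
      Rat.cast_ne_zero.2 (vol_ne_zero _ _ (𝓕.hcard E hE) (𝓕.hli E hE))
    have hi0' : ((ℓ (𝓕.V i) : ℚ) : K) ≠ 0 := Rat.cast_ne_zero.2 hi0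
    rw [𝓕.mon_chi, den, h1, Finset.prod_insert hiS, h2]
    field_simp
  have hsum : 𝓕.X (Fan.chi S) =
      𝓕.mon Δ (Fan.chi S) / 𝓕.den Δ + 𝓕.mon Δ' (Fan.chi S) / 𝓕.den Δ' := by
    unfold X
    have hsub : ({Δ, Δ'} : Finset (Finset ι)) ⊆ 𝓕.F := by
      intro E hE
      rcases Finset.mem_insert.1 hE with rfl | hE
      · exact hΔ
      · rw [Finset.mem_singleton.1 hE]; exact hΔ'
    rw [← Finset.sum_subset hsub, Finset.sum_pair hne]
    intro E hE hE'
    by_cases hSE : S ⊆ E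
    · exfalso
      rcases huniq E hE (herase ▸ Finset.union_subset hSE (𝓕.hρ E hE)) with h | h
      · exact hE' (by rw [h]; exact Finset.mem_insert_self _ _)
      · exact hE' (by rw [h]; exact Finset.mem_insert_of_mem (Finset.mem_singleton_self _))
    · obtain ⟨v, hv, hv'⟩ := Finset.not_subset.1 hSE
      rw [𝓕.mon_eq_zero hE hv' (by rw [Fan.chi, if_pos hv]; exact one_ne_zero), zero_div]
  have hΔi : Δ = insert j (S ∪ 𝓕.ρ) := by rw [← herase, Finset.insert_erase hj]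
  have hΔ'i : Δ' = insert j' (S ∪ 𝓕.ρ) := by rw [hΔ'def, herase]
  rw [hsum, hterm Δ hΔ j hjU hΔi hℓj.ne', hterm Δ' hΔ' j' hj'U hΔ'i hℓj'.ne]
  have hadj := vol_adj 𝓕.V Δ (𝓕.hcard Δ hΔ) (𝓕.hli Δ hΔ) j j' hj hj' ℓ hℓ0
  rw [abs_of_pos hℓj, abs_of_neg hℓj'] at hadj
  have hadj' : ((vol 𝓕.V Δ' : ℚ) : K) * ((ℓ (𝓕.V j) : ℚ) : K) =
      ((vol 𝓕.V Δ : ℚ) : K) * -((ℓ (𝓕.V j') : ℚ) : K) := by
    have := congrArg (fun q : ℚ => (q : K)) hadj
    simpa only [Rat.cast_mul, Rat.cast_neg] using this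
  have hv1 : (vol 𝓕.V Δ : K) ≠ 0 :=
    Rat.cast_ne_zero.2 (vol_ne_zero _ _ (𝓕.hcard Δ hΔ) (𝓕.hli Δ hΔ))
  have hv2 : (vol 𝓕.V Δ' : K) ≠ 0 :=
    Rat.cast_ne_zero.2 (vol_ne_zero _ _ (𝓕.hcard Δ' hΔ') (𝓕.hli Δ' hΔ'))
  by_cases hz : 𝓕.ev ℓ = 0
  · rw [hz]; simp
  · rw [div_add_div _ _ (mul_ne_zero hv1 hz) (mul_ne_zero hv2 hz), div_eq_zero_iff]
    left
    linear_combination (𝓕.ev ℓ) * hadj'

/-- squarefree monomials of degree less than `n - #ρ` -/
theorem X_squarefree (k : ℕ) : ∀ S : Finset ι, Disjoint S 𝓕.ρ → S.card + 𝓕.ρ.card + 1 + k = n →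
    𝓕.X (Fan.chi S) = 0 := by
  induction k with
  | zero => intro S hS hn; exact 𝓕.X_wall hS hn
  | succ k ih =>
    intro S hS hn
    by_cases hex : ∃ Δ ∈ 𝓕.F, S ⊆ Δ
    swap
    · push Not at hex
      refine 𝓕.X_eq_zero_of_forall fun Δ hΔ => ?_
      obtain ⟨v, hv, hv'⟩ := Finset.not_subset.1 (hex Δ hΔ)
      exact ⟨v, hv', by rw [Fan.chi, if_pos hv]; exact one_ne_zero⟩
    obtain ⟨Δ, hΔ, hSΔ⟩ := hex
    have hcU : (S ∪ 𝓕.ρ).card = S.card + 𝓕.ρ.card := Finset.card_union_of_disjoint hS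
    have hUΔ : S ∪ 𝓕.ρ ⊆ Δ := Finset.union_subset hSΔ (𝓕.hρ Δ hΔ)
    obtain ⟨j, hj, hjU⟩ : ∃ j ∈ Δ, j ∉ S ∪ 𝓕.ρ := by
      by_contra hcon
      push Not at hcon
      have := Finset.card_le_card (show Δ ⊆ S ∪ 𝓕.ρ from hcon)
      rw [hcU, 𝓕.hcard Δ hΔ] at this
      omega
    obtain ⟨c, -, hc2, -⟩ := exists_coord 𝓕.V Δ (𝓕.hcard Δ hΔ) (𝓕.hli Δ hΔ)
    have h1 := 𝓕.lin (c j) (Fan.chi S)
    have h2 : ∑ v, ((c j (𝓕.V v) : ℚ) : K) * 𝓕.X (Fan.chi S + Pi.single v 1) = 0 := by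
      refine Finset.sum_eq_zero fun v _ => ?_
      by_cases hvU : v ∈ S ∪ 𝓕.ρ
      · rw [hc2 j hj v (hUΔ hvU), if_neg (show ¬ j = v from fun h => hjU (h ▸ hvU)),
          Rat.cast_zero, zero_mul]
      · have hvS : v ∉ S := fun h => hvU (Finset.mem_union_left _ h)
        have hvρ : v ∉ 𝓕.ρ := fun h => hvU (Finset.mem_union_right _ h)
        rw [← Fan.chi_insert hvS, ih (insert v S) ?_ ?_, mul_zero]
        · rw [Finset.disjoint_insert_left]
          exact ⟨hvρ, hS⟩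
        · rw [Finset.card_insert_of_notMem hvS]
          omega
    rw [h2, 𝓕.coord_eq hΔ hc2 hj] at h1
    exact (mul_eq_zero.1 h1).resolve_left (𝓕.hξ Δ hΔ j hj)

/-- the support outside `ρ` -/
def sp (α : ι → ℕ) : Finset ι := Finset.univ.filter fun v => α v ≠ 0 ∧ v ∉ 𝓕.ρ

omit [CharZero K] in
theorem card_sp_le (α : ι → ℕ) : (𝓕.sp α).card ≤ ∑ v, α v := by
  rw [Finset.card_eq_sum_ones]
  refine (Finset.sum_le_sum fun v hv => ?_).trans
    (Finset.sum_le_sum_of_subset (Finset.subset_univ (𝓕.sp α)))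
  exact Nat.one_le_iff_ne_zero.2 (Finset.mem_filter.1 hv).2.1

/-- all monomials of degree less than `n - #ρ` -/
theorem X_low (d : ℕ) : ∀ e : ℕ, ∀ α : ι → ℕ, ∑ v, α v = d → d + 𝓕.ρ.card < n →
    (𝓕.sp α).card + e = d → 𝓕.X α = 0 := by
  induction d with
  | zero =>
    intro e α hα hn _
    have h0 : α = Fan.chi ∅ := by
      funext v
      have := (Finset.sum_eq_zero_iff.1 hα) v (Finset.mem_univ v)
      rw [this]; rfl
    rw [h0]
    exact 𝓕.X_squarefree (n - 𝓕.ρ.card - 1) ∅ (Finset.disjoint_empty_left _)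
      (by rw [Finset.card_empty]; omega)
  | succ d ihd =>
    intro e
    induction e with
    | zero =>
      intro α hα hn hs
      have h0 : α = Fan.chi (𝓕.sp α) := by
        have h1 : ∑ v, Fan.chi (𝓕.sp α) v = ∑ v, α v := by
          rw [hα, ← hs, add_zero, Finset.card_eq_sum_ones, ← Finset.sum_subset
            (Finset.subset_univ (𝓕.sp α))]
          · exact Finset.sum_congr rfl fun v hv => by rw [Fan.chi, if_pos hv]
          · intro v _ hv; rw [Fan.chi, if_neg hv]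
        have h2 : ∀ v ∈ Finset.univ, Fan.chi (𝓕.sp α) v ≤ α v := by
          intro v _
          rw [Fan.chi]
          split_ifs with h
          · exact Nat.one_le_iff_ne_zero.2 (Finset.mem_filter.1 h).2.1
          · exact Nat.zero_le _
        funext v
        exact ((Finset.sum_eq_sum_iff_of_le h2).1 h1 v (Finset.mem_univ v)).symm
      rw [h0]
      refine 𝓕.X_squarefree (n - 𝓕.ρ.card - 1 - (d + 1)) _ ?_ (by omega)
      rw [Finset.disjoint_left]
      intro v hv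
      exact (Finset.mem_filter.1 hv).2.2
    | succ e ihe =>
      intro α hα hn hs
      -- a variable which is repeated or in `ρ`
      obtain ⟨w, hw⟩ : ∃ w, (w ∈ 𝓕.ρ ∧ 1 ≤ α w) ∨ (w ∉ 𝓕.ρ ∧ 2 ≤ α w) := by
        by_contra hcon
        push Not at hcon
        have h1 : ∑ v, α v ≤ (𝓕.sp α).card := by
          rw [Finset.card_eq_sum_ones, sp, Finset.sum_filter]
          refine Finset.sum_le_sum fun v _ => ?_
          by_cases hv : v ∈ 𝓕.ρ
          · have := (hcon v).1 hv; omega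
          · have := (hcon v).2 hv
            by_cases hv0 : α v = 0
            · rw [hv0]; exact Nat.zero_le _
            · rw [if_pos ⟨hv0, hv⟩]; omega
        omega
      have hw1 : 1 ≤ α w := by rcases hw with h | h <;> omega
      by_cases hex : ∃ Δ ∈ 𝓕.F, 𝓕.sp α ⊆ Δ
      swap
      · push Not at hex
        refine 𝓕.X_eq_zero_of_forall fun Δ hΔ => ?_
        obtain ⟨v, hv, hv'⟩ := Finset.not_subset.1 (hex Δ hΔ)
        exact ⟨v, hv', (Finset.mem_filter.1 hv).2.1⟩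
      obtain ⟨Δ, hΔ, hspΔ⟩ := hex
      have hsupp : ∀ v, α v ≠ 0 → v ∈ Δ := by
        intro v hv
        by_cases hvρ : v ∈ 𝓕.ρ
        · exact 𝓕.hρ Δ hΔ hvρ
        · exact hspΔ (Finset.mem_filter.2 ⟨Finset.mem_univ v, hv, hvρ⟩)
      have hwΔ : w ∈ Δ := hsupp w (by omega)
      set α' : ι → ℕ := α - Pi.single w 1 with hα'
      have hα'w : α' + Pi.single w 1 = α := by
        funext v
        rw [hα', Pi.add_apply, Pi.sub_apply]
        by_cases h : v = w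
        · subst h; rw [Pi.single_eq_same]; omega
        · rw [Pi.single_eq_of_ne h]; omega
      have hsum' : ∑ v, α' v = d := by
        have : ∑ v, (α' + (Pi.single w 1 : ι → ℕ)) v = d + 1 := by rw [hα'w, hα]
        simp only [Pi.add_apply, Finset.sum_add_distrib, Finset.sum_pi_single', Finset.mem_univ,
          if_true] at this
        omega
      have hX' : 𝓕.X α' = 0 := by
        have hle := 𝓕.card_sp_le α'
        exact ihd (d - (𝓕.sp α').card) α' hsum' (by omega) (by omega)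
      obtain ⟨c, -, hc2, -⟩ := exists_coord 𝓕.V Δ (𝓕.hcard Δ hΔ) (𝓕.hli Δ hΔ)
      have h1 := 𝓕.lin (c w) α'
      rw [hX', mul_zero, Finset.sum_eq_single w, hc2 w hwΔ w hwΔ, if_pos rfl, Rat.cast_one,
        one_mul, hα'w] at h1
      · exact h1.symm
      · intro v _ hv
        by_cases hvΔ : v ∈ Δ
        · rw [hc2 w hwΔ v hvΔ, if_neg (Ne.symm hv), Rat.cast_zero, zero_mul]
        · have hvρ : v ∉ 𝓕.ρ := fun h => hvΔ (𝓕.hρ Δ hΔ h)
          have hvα : α v = 0 := by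
            by_contra h; exact hvΔ (hsupp v h)
          have hspv : 𝓕.sp (α' + Pi.single v 1) = insert v (𝓕.sp α) := by
            ext u
            simp only [sp, Finset.mem_filter, Finset.mem_univ, true_and, Finset.mem_insert,
              Pi.add_apply]
            have h2 : α u = α' u + (Pi.single w 1 : ι → ℕ) u := by rw [← hα'w]; rfl
            by_cases huv : u = v
            · subst huv
              rw [Pi.single_eq_same]
              simp [hvρ]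
            · rw [Pi.single_eq_of_ne huv, add_zero]
              by_cases huw : u = w
              · subst huw
                rw [Pi.single_eq_same] at h2
                constructor
                · rintro ⟨h3, h4⟩
                  exact Or.inr ⟨by omega, h4⟩
                · rintro (h3 | ⟨h3, h4⟩)
                  · exact absurd h3 huv
                  · refine ⟨?_, h4⟩
                    rcases hw with hw | hw
                    · exact absurd hw.1 h4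
                    · omega
              · rw [Pi.single_eq_of_ne huw, add_zero] at h2
                rw [h2]
                simp [huv]
          have hsum'' : ∑ u, (α' + (Pi.single v 1 : ι → ℕ)) u = d + 1 := by
            simp only [Pi.add_apply, Finset.sum_add_distrib, Finset.sum_pi_single',
              Finset.mem_univ, if_true]
            omega
          rw [ihe (α' + Pi.single v 1) hsum'' hn ?_, mul_zero]
          rw [hspv, Finset.card_insert_of_notMem]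
          · omega
          · intro h
            exact (Finset.mem_filter.1 h).2.1 hvα
      · intro h; exact absurd (Finset.mem_univ w) h

end KFan

/-! ### The degree map -/

section Degree

variable (V : ι → Fin n → ℚ) {K : Type} [Field K] (t : Finset ι → ι → K)
  (𝒱 : Finset (Finset ι)) (ρ : Finset ι)

/-- The degree map of the star of `ρ` in the complex with facets `𝒱` and coordinates `t` of the
generic vector. -/
noncomputable def lamD : MvPolynomial ι K →ₗ[K] K :=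
  ∑ D ∈ 𝒱.filter (fun D => ρ ⊆ D), ((vol V D : K) * ∏ j ∈ D \ ρ, t D j)⁻¹ •
    ((MvPolynomial.aeval (R := K) (t D)).toLinearMap.comp
      (MvPolynomial.homogeneousComponent (n - ρ.card)))

omit [Fintype ι] in
theorem lamD_apply (P : MvPolynomial ι K) : lamD V t 𝒱 ρ P =
    ∑ D ∈ 𝒱.filter (fun D => ρ ⊆ D),
      MvPolynomial.eval (t D) (MvPolynomial.homogeneousComponent (n - ρ.card) P) /
        ((vol V D : K) * ∏ j ∈ D \ ρ, t D j) := by
  unfold lamD
  rw [LinearMap.sum_apply]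
  refine Finset.sum_congr rfl fun D _ => ?_
  rw [LinearMap.smul_apply, smul_eq_mul, div_eq_inv_mul]
  rfl

variable {𝒱} (hcard : ∀ Δ ∈ 𝒱, Δ.card = n)

include hcard in
theorem lamD_monomial (α : ι →₀ ℕ) : lamD V t 𝒱 ρ (MvPolynomial.monomial α 1) =
    if ∑ v, α v + ρ.card = n then
      ∑ D ∈ 𝒱.filter (fun D => ρ ⊆ D), (∏ v, t D v ^ α v) /
        ((vol V D : K) * ∏ j ∈ D \ ρ, t D j) else 0 := by
  rw [lamD_apply]
  have hhom : ((MvPolynomial.monomial α 1 : MvPolynomial ι K)) ∈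
      MvPolynomial.homogeneousSubmodule ι K (∑ v, α v) := by
    rw [MvPolynomial.mem_homogeneousSubmodule]
    refine MvPolynomial.isHomogeneous_monomial _ ?_
    rw [Finsupp.degree_eq_sum]
  rw [MvPolynomial.homogeneousComponent_of_mem hhom]
  by_cases hd : ∑ v, α v + ρ.card = n
  · rw [if_pos hd, if_pos (by omega : n - ρ.card = ∑ v, α v)]
    refine Finset.sum_congr rfl fun D _ => ?_
    rw [MvPolynomial.eval_monomial, one_mul, Finsupp.prod_fintype _ _ fun i => pow_zero _]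
  · rw [if_neg hd]
    refine Finset.sum_eq_zero fun D hD => ?_
    obtain ⟨hD1, hD2⟩ := Finset.mem_filter.1 hD
    have hle := Finset.card_le_card hD2
    rw [hcard D hD1] at hle
    rw [if_neg (by omega), map_zero, zero_div]

variable (ht0 : ∀ Δ ∈ 𝒱, ∀ v, v ∉ Δ → t Δ v = 0) (hξ : ∀ Δ ∈ 𝒱, ∀ v ∈ Δ, t Δ v ≠ 0)

include hcard ht0 hξ in
/-- Gysin -/
theorem lamD_mul_prod (S : Finset ι) (hS : Disjoint S ρ) (P : MvPolynomial ι K) :
    lamD V t 𝒱 ρ (P * ∏ i ∈ S, MvPolynomial.X i) = lamD V t 𝒱 (ρ ∪ S) P := by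
  have key : (lamD V t 𝒱 ρ).comp (LinearMap.mulRight K (∏ i ∈ S, MvPolynomial.X i)) =
      lamD V t 𝒱 (ρ ∪ S) := by
    refine (MvPolynomial.basisMonomials ι K).ext fun α => ?_
    rw [MvPolynomial.coe_basisMonomials, LinearMap.comp_apply, LinearMap.mulRight_apply, Fan.prod_X,
      MvPolynomial.monomial_mul, one_mul, lamD_monomial V t _ hcard, lamD_monomial V t _ hcard]
    have hc : (ρ ∪ S).card = ρ.card + S.card := Finset.card_union_of_disjoint hS.symm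
    have hchi : ∀ v, (α + ∑ i ∈ S, Finsupp.single i 1 : ι →₀ ℕ) v = α v + Fan.chi S v := by
      intro v
      rw [Finsupp.add_apply]
      have := congrFun (Fan.coe_sum_single (ι := ι) S) v
      rw [this]
    have hsum : ∑ v, (α + ∑ i ∈ S, Finsupp.single i 1 : ι →₀ ℕ) v = ∑ v, α v + S.card := by
      rw [Finset.sum_congr rfl fun v _ => hchi v, Finset.sum_add_distrib]
      congr 1
      rw [Finset.card_eq_sum_ones, ← Finset.sum_subset (Finset.subset_univ S)]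
      · exact Finset.sum_congr rfl fun v hv => by rw [Fan.chi, if_pos hv]
      · intro v _ hv; rw [Fan.chi, if_neg hv]
    rw [hsum, hc]
    by_cases hd : ∑ v, α v + S.card + ρ.card = n
    swap
    · rw [if_neg hd, if_neg (by omega)]
    rw [if_pos hd, if_pos (by omega)]
    have hsub : 𝒱.filter (fun D => ρ ∪ S ⊆ D) ⊆ 𝒱.filter (fun D => ρ ⊆ D) := by
      intro D hD
      obtain ⟨h1, h2⟩ := Finset.mem_filter.1 hD
      exact Finset.mem_filter.2 ⟨h1, (Finset.subset_union_left).trans h2⟩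
    rw [← Finset.sum_subset hsub]
    · refine Finset.sum_congr rfl fun D hD => ?_
      obtain ⟨h1, h2⟩ := Finset.mem_filter.1 hD
      have e1 : ∏ v, t D v ^ (α + ∑ i ∈ S, Finsupp.single i 1 : ι →₀ ℕ) v =
          (∏ v, t D v ^ α v) * ∏ v ∈ S, t D v := by
        have e2 : ∏ v ∈ S, t D v = ∏ v, t D v ^ Fan.chi S v := by
          rw [← Finset.prod_subset (Finset.subset_univ S)]
          · exact Finset.prod_congr rfl fun v hv => by rw [Fan.chi, if_pos hv, pow_one]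
          · intro v _ hv; rw [Fan.chi, if_neg hv, pow_zero]
        rw [e2, ← Finset.prod_mul_distrib]
        exact Finset.prod_congr rfl fun v _ => by rw [hchi, pow_add]
      have e3 : ∏ j ∈ D \ ρ, t D j = (∏ j ∈ D \ (ρ ∪ S), t D j) * ∏ v ∈ S, t D v := by
        rw [← Finset.prod_union]
        · refine Finset.prod_congr ?_ fun _ _ => rfl
          ext v
          simp only [Finset.mem_sdiff, Finset.mem_union]
          have hS1 : v ∈ S → v ∈ D := fun h => h2 (Finset.mem_union_right _ h)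
          have hS2 : v ∈ S → v ∉ ρ := fun h => Finset.disjoint_left.1 hS h
          tauto
        · rw [Finset.disjoint_left]
          intro v hv hv'
          exact (Finset.mem_sdiff.1 hv).2 (Finset.mem_union_right _ hv')
      have hp : ∏ v ∈ S, t D v ≠ 0 := Finset.prod_ne_zero_iff.2 fun v hv =>
        hξ D h1 v (h2 (Finset.mem_union_right _ hv))
      rw [e1, e3, ← mul_assoc, mul_div_mul_right _ _ hp]
    · intro D hD hD'
      obtain ⟨h1, h2⟩ := Finset.mem_filter.1 hD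
      have h3 : ¬ S ⊆ D := fun h => hD' (Finset.mem_filter.2 ⟨h1, Finset.union_subset h2 h⟩)
      obtain ⟨v, hv, hv'⟩ := Finset.not_subset.1 h3
      rw [Finset.prod_eq_zero (Finset.mem_univ v), zero_div]
      rw [ht0 D h1 v hv', hchi, Fan.chi, if_pos hv, zero_pow (Nat.succ_ne_zero _)]
  exact LinearMap.congr_fun key P

variable [CharZero K]

include hcard ht0 hξ in
/-- The cohomology ring of the star of `ρ`, defined by the explicit degree map. -/
theorem exists_ring_deg (hli : ∀ Δ ∈ 𝒱, LinearIndependent ℚ (fun i : {i // i ∈ Δ} => V i))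
    (ξ : Fin n → K) (ht : ∀ Δ ∈ 𝒱, ∀ a, ∑ v, t Δ v * (V v a : K) = ξ a)
    (hwall : ∀ Δ ∈ 𝒱, ρ ⊆ Δ → ∀ j ∈ Δ, j ∉ ρ → ∃ j' ∉ Δ, insert j' (Δ.erase j) ∈ 𝒱 ∧
      (∀ Δ'' ∈ 𝒱, Δ.erase j ⊆ Δ'' → Δ'' = Δ ∨ Δ'' = insert j' (Δ.erase j)) ∧
      ∃ d : Fin n → ℚ, (∀ i ∈ Δ.erase j, ∑ a, d a * V i a = 0) ∧ 0 < ∑ a, d a * V j a ∧
        ∑ a, d a * V j' a < 0) :
    ∃ (H : Type) (_ : CommRing H) (_ : Algebra K H) (z : ι → H),
      (∀ a : Fin n, ∑ i, algebraMap K H (V i a : K) * z i = 0) ∧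
      (∀ S : Finset ι, (∀ Δ ∈ 𝒱, ρ ⊆ Δ → ¬ S ⊆ Δ) → ∏ i ∈ S, z i = 0) ∧
      (∀ i, IsNilpotent (z i)) ∧
      ∀ P : MvPolynomial ι K, MvPolynomial.aeval z P = 0 ↔ ∀ Q, lamD V t 𝒱 ρ (P * Q) = 0 := by
  classical
  let 𝓕 : KFan n ι K :=
    { V := V
      ρ := ρ
      F := 𝒱.filter fun D => ρ ⊆ D
      hρ := fun Δ hΔ => (Finset.mem_filter.1 hΔ).2
      hcard := fun Δ hΔ => hcard Δ (Finset.mem_filter.1 hΔ).1
      hli := fun Δ hΔ => hli Δ (Finset.mem_filter.1 hΔ).1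
      hwall := by
        intro Δ hΔ j hj hjρ
        obtain ⟨hΔ1, hΔ2⟩ := Finset.mem_filter.1 hΔ
        obtain ⟨j', hj', h1, h2, d, hd0, hdj, hdj'⟩ := hwall Δ hΔ1 hΔ2 j hj hjρ
        refine ⟨j', hj', Finset.mem_filter.2 ⟨h1, fun v hv => Finset.mem_insert_of_mem
          (Finset.mem_erase.2 ⟨fun h => hjρ (h ▸ hv), hΔ2 hv⟩)⟩,
          fun Δ'' hΔ'' => h2 Δ'' (Finset.mem_filter.1 hΔ'').1,
          ∑ a, d a • LinearMap.proj a, ?_, ?_, ?_⟩
        · intro i hi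
          rw [LinearMap.sum_apply]
          exact hd0 i hi
        · rw [LinearMap.sum_apply]
          exact hdj
        · rw [LinearMap.sum_apply]
          exact hdj'
      t := t
      ξ := ξ
      ht0 := fun Δ hΔ => ht0 Δ (Finset.mem_filter.1 hΔ).1
      ht := fun Δ hΔ => ht Δ (Finset.mem_filter.1 hΔ).1
      hξ := fun Δ hΔ => hξ Δ (Finset.mem_filter.1 hΔ).1 }
  have hmon : ∀ α : ι →₀ ℕ, lamD V t 𝒱 ρ (MvPolynomial.monomial α 1) =
      if ∑ v, α v + ρ.card = n then 𝓕.X fun v => α v else 0 := fun α =>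
    lamD_monomial V t ρ hcard α
  let J : Ideal (MvPolynomial ι K) :=
    { carrier := {P | ∀ Q, lamD V t 𝒱 ρ (P * Q) = 0}
      zero_mem' := fun Q => by rw [zero_mul, map_zero]
      add_mem' := fun {P P'} hP hP' Q => by rw [add_mul, map_add, hP Q, hP' Q, add_zero]
      smul_mem' := fun R P hP Q => by
        rw [smul_eq_mul, mul_comm R P, mul_assoc]
        exact hP _ }
  have hJ : ∀ P, P ∈ J ↔ ∀ Q, lamD V t 𝒱 ρ (P * Q) = 0 := fun P => Iff.rfl
  have hJ' : ∀ P : MvPolynomial ι K,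
      (∀ β : ι →₀ ℕ, lamD V t 𝒱 ρ (P * MvPolynomial.monomial β 1) = 0) → P ∈ J := by
    intro P h
    have h1 : (lamD V t 𝒱 ρ).comp (LinearMap.mulLeft K P) = 0 := by
      refine (MvPolynomial.basisMonomials ι K).ext fun β => ?_
      rw [MvPolynomial.coe_basisMonomials]
      exact h β
    intro Q
    exact LinearMap.congr_fun h1 Q
  have hmk : ∀ P : MvPolynomial ι K,
      MvPolynomial.aeval (fun i => Ideal.Quotient.mk J (MvPolynomial.X i)) P =
        Ideal.Quotient.mk J P := by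
    intro P
    have h1 : (MvPolynomial.aeval (R := K) fun i => Ideal.Quotient.mk J (MvPolynomial.X i)) =
        Ideal.Quotient.mkₐ K J := by
      refine MvPolynomial.algHom_ext fun i => ?_
      rw [MvPolynomial.aeval_X]
      rfl
    rw [h1]
    rfl
  refine ⟨MvPolynomial ι K ⧸ J, inferInstance, inferInstance,
    fun i => Ideal.Quotient.mk J (MvPolynomial.X i), ?_, ?_, ?_, ?_⟩
  · intro a
    have hrel : (∑ i, MvPolynomial.C ((V i a : ℚ) : K) * MvPolynomial.X i : MvPolynomial ι K) ∈ J := by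
      refine hJ' _ fun β => ?_
      rw [Finset.sum_mul, map_sum]
      have h1 : ∀ i, lamD V t 𝒱 ρ (MvPolynomial.C ((V i a : ℚ) : K) * MvPolynomial.X i *
          MvPolynomial.monomial β 1) = ((V i a : ℚ) : K) *
            (if ∑ v, β v + 1 + ρ.card = n then
              𝓕.X ((fun v => β v) + Pi.single i 1) else 0) := by
        intro i
        rw [mul_assoc, MvPolynomial.C_mul', map_smul, smul_eq_mul, MvPolynomial.X,
          MvPolynomial.monomial_mul, one_mul, hmon]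
        have h2 : ∀ v, (Finsupp.single i 1 + β : ι →₀ ℕ) v = β v + (Pi.single i 1 : ι → ℕ) v := by
          intro v
          rw [Finsupp.add_apply, add_comm, Finsupp.single_apply, Pi.single_apply]
          by_cases h : i = v
          · subst h; simp
          · rw [if_neg h, if_neg (Ne.symm h)]
        have h3 : ∑ v, (Finsupp.single i 1 + β : ι →₀ ℕ) v = ∑ v, β v + 1 := by
          rw [Finset.sum_congr rfl fun v _ => h2 v, Finset.sum_add_distrib,
            Finset.sum_pi_single', if_pos (Finset.mem_univ i)]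
        have h4 : (fun v => (Finsupp.single i 1 + β : ι →₀ ℕ) v) =
            (fun v => β v) + Pi.single i 1 := funext h2
        rw [h3, h4]
      rw [Finset.sum_congr rfl fun i _ => h1 i]
      by_cases hd : ∑ v, β v + 1 + ρ.card = n
      · simp only [if_pos hd]
        have h5 := 𝓕.lin (LinearMap.proj a) (fun v => β v)
        have h6 : 𝓕.X (fun v => β v) = 0 := by
          have hle := 𝓕.card_sp_le (fun v => β v)
          have hρc : 𝓕.ρ.card = ρ.card := rfl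
          refine 𝓕.X_low (∑ v, β v) (∑ v, β v - (𝓕.sp fun v => β v).card) (fun v => β v) rfl
            (by omega) (by omega)
        rw [h6, mul_zero] at h5
        exact h5.symm
      · simp only [if_neg hd, mul_zero, Finset.sum_const_zero]
    have h1 := Ideal.Quotient.eq_zero_iff_mem.2 hrel
    rw [map_sum] at h1
    rw [← h1]
    refine Finset.sum_congr rfl fun i _ => ?_
    rw [map_mul]
    rfl
  · intro S hS
    have hrel : (∏ i ∈ S, MvPolynomial.X i : MvPolynomial ι K) ∈ J := by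
      refine hJ' _ fun β => ?_
      rw [Fan.prod_X, MvPolynomial.monomial_mul, one_mul, hmon]
      have h0 : 𝓕.X (fun v => (∑ i ∈ S, Finsupp.single i 1 + β : ι →₀ ℕ) v) = 0 := by
        refine 𝓕.X_eq_zero_of_forall fun Δ hΔ => ?_
        obtain ⟨hΔ1, hΔ2⟩ := Finset.mem_filter.1 hΔ
        obtain ⟨v, hv, hv'⟩ := Finset.not_subset.1 (hS Δ hΔ1 hΔ2)
        refine ⟨v, hv', ?_⟩
        have h1 := congrFun (Fan.coe_sum_single (ι := ι) S) v
        rw [Fan.chi, if_pos hv] at h1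
        rw [Finsupp.add_apply, h1]
        omega
      rw [h0, ite_self]
    have h1 := Ideal.Quotient.eq_zero_iff_mem.2 hrel
    rwa [map_prod] at h1
  · intro i
    have hrel : (MvPolynomial.X i ^ (n + 1) : MvPolynomial ι K) ∈ J := by
      refine hJ' _ fun β => ?_
      rw [MvPolynomial.X_pow_eq_monomial, MvPolynomial.monomial_mul, one_mul, hmon, if_neg]
      intro h
      have h1 : (Finsupp.single i (n + 1) + β : ι →₀ ℕ) i ≤
          ∑ v, (Finsupp.single i (n + 1) + β : ι →₀ ℕ) v :=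
        Finset.single_le_sum (f := fun v => (Finsupp.single i (n + 1) + β : ι →₀ ℕ) v)
          (fun v _ => Nat.zero_le _) (Finset.mem_univ i)
      rw [Finsupp.add_apply, Finsupp.single_eq_same] at h1
      omega
    refine ⟨n + 1, ?_⟩
    have h1 := Ideal.Quotient.eq_zero_iff_mem.2 hrel
    rwa [map_pow] at h1
  · intro P
    rw [hmk, Ideal.Quotient.eq_zero_iff_mem]
    exact hJ P

omit [CharZero K] in
include hcard ht0 hξ in
/-- the class of a point -/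
theorem lamD_top {D : Finset ι} (hD : D ∈ 𝒱) (hρD : ρ ⊆ D) :
    lamD V t 𝒱 ρ (∏ i ∈ D \ ρ, MvPolynomial.X i) = ((vol V D : ℚ) : K)⁻¹ := by
  have h1 := lamD_mul_prod V t ρ hcard ht0 hξ (D \ ρ) Finset.sdiff_disjoint 1
  rw [one_mul] at h1
  rw [h1, Finset.union_sdiff_of_subset hρD, lamD_apply]
  have h2 : (MvPolynomial.homogeneousComponent (n - D.card) (1 : MvPolynomial ι K)) = 1 := by
    rw [hcard D hD, Nat.sub_self, ← MvPolynomial.C_1]
    rw [MvPolynomial.homogeneousComponent_zero, MvPolynomial.coeff_C, if_pos rfl]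
  rw [h2]
  have h3 : 𝒱.filter (fun E => D ⊆ E) = {D} := by
    ext E
    rw [Finset.mem_filter, Finset.mem_singleton]
    constructor
    · rintro ⟨h4, h5⟩
      exact (Finset.eq_of_subset_of_card_le h5 (by rw [hcard E h4, hcard D hD])).symm
    · rintro rfl
      exact ⟨hD, subset_rfl⟩
  rw [h3, Finset.sum_singleton, map_one, Finset.sdiff_self, Finset.prod_empty, mul_one, one_div]

end Degree

/-! ### The equivariant integral -/

section Equiv

variable (V : ι → Fin n → ℚ) {K : Type} [Field K] (t : Finset ι → ι → K)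
  (𝒱 : Finset (Finset ι)) (ρ : Finset ι)

/-- The equivariant integral over the star of `ρ`. -/
noncomputable def lamXi : MvPolynomial ι K →ₗ[K] K :=
  ∑ D ∈ 𝒱.filter (fun D => ρ ⊆ D), ((vol V D : K) * ∏ j ∈ D \ ρ, t D j)⁻¹ •
    (MvPolynomial.aeval (R := K) (t D)).toLinearMap

omit [Fintype ι] in
theorem lamXi_apply (P : MvPolynomial ι K) : lamXi V t 𝒱 ρ P =
    ∑ D ∈ 𝒱.filter (fun D => ρ ⊆ D),
      MvPolynomial.eval (t D) P / ((vol V D : K) * ∏ j ∈ D \ ρ, t D j) := by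
  unfold lamXi
  rw [LinearMap.sum_apply]
  refine Finset.sum_congr rfl fun D _ => ?_
  rw [LinearMap.smul_apply, smul_eq_mul, div_eq_inv_mul]
  rfl

omit [Fintype ι] in
theorem lamD_eq_lamXi (P : MvPolynomial ι K) :
    lamD V t 𝒱 ρ P = lamXi V t 𝒱 ρ (MvPolynomial.homogeneousComponent (n - ρ.card) P) := by
  rw [lamD_apply, lamXi_apply]

variable {𝒱} (hcard : ∀ Δ ∈ 𝒱, Δ.card = n)
  (ht0 : ∀ Δ ∈ 𝒱, ∀ v, v ∉ Δ → t Δ v = 0) (hξ : ∀ Δ ∈ 𝒱, ∀ v ∈ Δ, t Δ v ≠ 0)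
  [CharZero K]

include hcard ht0 hξ in
/-- Vanishing of the equivariant integral in low degrees. -/
theorem lamXi_low (hli : ∀ Δ ∈ 𝒱, LinearIndependent ℚ (fun i : {i // i ∈ Δ} => V i))
    (ξ : Fin n → K) (ht : ∀ Δ ∈ 𝒱, ∀ a, ∑ v, t Δ v * (V v a : K) = ξ a)
    (hwall : ∀ Δ ∈ 𝒱, ρ ⊆ Δ → ∀ j ∈ Δ, j ∉ ρ → ∃ j' ∉ Δ, insert j' (Δ.erase j) ∈ 𝒱 ∧
      (∀ Δ'' ∈ 𝒱, Δ.erase j ⊆ Δ'' → Δ'' = Δ ∨ Δ'' = insert j' (Δ.erase j)) ∧
      ∃ d : Fin n → ℚ, (∀ i ∈ Δ.erase j, ∑ a, d a * V i a = 0) ∧ 0 < ∑ a, d a * V j a ∧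
        ∑ a, d a * V j' a < 0)
    (P : MvPolynomial ι K) (d : ℕ) (hP : P.IsHomogeneous d) (hd : d + ρ.card < n) :
    lamXi V t 𝒱 ρ P = 0 := by
  classical
  let 𝓕 : KFan n ι K :=
    { V := V
      ρ := ρ
      F := 𝒱.filter fun D => ρ ⊆ D
      hρ := fun Δ hΔ => (Finset.mem_filter.1 hΔ).2
      hcard := fun Δ hΔ => hcard Δ (Finset.mem_filter.1 hΔ).1
      hli := fun Δ hΔ => hli Δ (Finset.mem_filter.1 hΔ).1
      hwall := by
        intro Δ hΔ j hj hjρ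
        obtain ⟨hΔ1, hΔ2⟩ := Finset.mem_filter.1 hΔ
        obtain ⟨j', hj', h1, h2, d, hd0, hdj, hdj'⟩ := hwall Δ hΔ1 hΔ2 j hj hjρ
        refine ⟨j', hj', Finset.mem_filter.2 ⟨h1, fun v hv => Finset.mem_insert_of_mem
          (Finset.mem_erase.2 ⟨fun h => hjρ (h ▸ hv), hΔ2 hv⟩)⟩,
          fun Δ'' hΔ'' => h2 Δ'' (Finset.mem_filter.1 hΔ'').1,
          ∑ a, d a • LinearMap.proj a, ?_, ?_, ?_⟩
        · intro i hi
          rw [LinearMap.sum_apply]
          exact hd0 i hi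
        · rw [LinearMap.sum_apply]
          exact hdj
        · rw [LinearMap.sum_apply]
          exact hdj'
      t := t
      ξ := ξ
      ht0 := fun Δ hΔ => ht0 Δ (Finset.mem_filter.1 hΔ).1
      ht := fun Δ hΔ => ht Δ (Finset.mem_filter.1 hΔ).1
      hξ := fun Δ hΔ => hξ Δ (Finset.mem_filter.1 hΔ).1 }
  have hmon : ∀ α : ι →₀ ℕ, lamXi V t 𝒱 ρ (MvPolynomial.monomial α 1) = 𝓕.X fun v => α v := by
    intro α
    rw [lamXi_apply]
    refine Finset.sum_congr rfl fun D _ => ?_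
    rw [MvPolynomial.eval_monomial, one_mul, Finsupp.prod_fintype _ _ fun i => pow_zero _]
    rfl
  rw [P.as_sum, map_sum]
  refine Finset.sum_eq_zero fun α hα => ?_
  have hdeg : ∑ v, α v = d := by
    have h1 := hP (MvPolynomial.mem_support_iff.1 hα)
    rw [← h1, Finsupp.weight_apply, Finsupp.sum_fintype _ _ (fun i => by simp)]
    exact Finset.sum_congr rfl fun i _ => by simp
  have h2 : MvPolynomial.monomial α (MvPolynomial.coeff α P) =
      MvPolynomial.coeff α P • MvPolynomial.monomial α (1 : K) := by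
    rw [MvPolynomial.smul_monomial, smul_eq_mul, mul_one]
  rw [h2, map_smul, hmon]
  have h3 : 𝓕.X (fun v => α v) = 0 := by
    have hle := 𝓕.card_sp_le (fun v => α v)
    have hρc : 𝓕.ρ.card = ρ.card := rfl
    refine 𝓕.X_low (∑ v, α v) (∑ v, α v - (𝓕.sp fun v => α v).card) (fun v => α v) rfl
      (by omega) (by omega)
  rw [h3, smul_zero]

omit [CharZero K] [Fintype ι] in
include ht0 hξ in
/-- Gysin for the equivariant integral -/
theorem lamXi_mul_prod (S : Finset ι) (hS : Disjoint S ρ) (P : MvPolynomial ι K) :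
    lamXi V t 𝒱 ρ (P * ∏ i ∈ S, MvPolynomial.X i) = lamXi V t 𝒱 (ρ ∪ S) P := by
  rw [lamXi_apply, lamXi_apply]
  have hsub : 𝒱.filter (fun D => ρ ∪ S ⊆ D) ⊆ 𝒱.filter (fun D => ρ ⊆ D) := by
    intro D hD
    obtain ⟨h1, h2⟩ := Finset.mem_filter.1 hD
    exact Finset.mem_filter.2 ⟨h1, (Finset.subset_union_left).trans h2⟩
  rw [← Finset.sum_subset hsub]
  · refine Finset.sum_congr rfl fun D hD => ?_
    obtain ⟨h1, h2⟩ := Finset.mem_filter.1 hD
    have e3 : ∏ j ∈ D \ ρ, t D j = (∏ j ∈ D \ (ρ ∪ S), t D j) * ∏ v ∈ S, t D v := by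
      rw [← Finset.prod_union]
      · refine Finset.prod_congr ?_ fun _ _ => rfl
        ext v
        simp only [Finset.mem_sdiff, Finset.mem_union]
        have hS1 : v ∈ S → v ∈ D := fun h => h2 (Finset.mem_union_right _ h)
        have hS2 : v ∈ S → v ∉ ρ := fun h => Finset.disjoint_left.1 hS h
        tauto
      · rw [Finset.disjoint_left]
        intro v hv hv'
        exact (Finset.mem_sdiff.1 hv).2 (Finset.mem_union_right _ hv')
    have hp : ∏ v ∈ S, t D v ≠ 0 := Finset.prod_ne_zero_iff.2 fun v hv =>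
      hξ D h1 v (h2 (Finset.mem_union_right _ hv))
    have e4 : MvPolynomial.eval (t D) (P * ∏ i ∈ S, MvPolynomial.X i) =
        MvPolynomial.eval (t D) P * ∏ v ∈ S, t D v := by
      rw [map_mul, map_prod]
      simp only [MvPolynomial.eval_X]
    rw [e3, ← mul_assoc, e4, mul_div_mul_right _ _ hp]
  · intro D hD hD'
    obtain ⟨h1, h2⟩ := Finset.mem_filter.1 hD
    have h3 : ¬ S ⊆ D := fun h => hD' (Finset.mem_filter.2 ⟨h1, Finset.union_subset h2 h⟩)
    obtain ⟨v, hv, hv'⟩ := Finset.not_subset.1 h3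
    rw [map_mul, map_prod]
    simp only [MvPolynomial.eval_X]
    rw [Finset.prod_eq_zero hv (ht0 D h1 v hv'), mul_zero, zero_div]

end Equiv

/-! ### Coordinates -/

/-- coordinates of a rational vector -/
theorem exists_coords (V : ι → Fin n → ℚ) (Δ : Finset ι) (hcard : Δ.card = n)
    (hli : LinearIndependent ℚ (fun i : {i // i ∈ Δ} => V i)) (x : Fin n → ℚ) :
    ∃ t : ι → ℚ, (∀ v, v ∉ Δ → t v = 0) ∧ ∀ a, ∑ v, t v * V v a = x a := by
  obtain ⟨c, hc1, -, hc3⟩ := exists_coord V Δ hcard hli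
  refine ⟨fun v => c v x, fun v hv => LinearMap.congr_fun (hc1 v hv) x, fun a => ?_⟩
  have h1 := congrFun (hc3 x) a
  rw [h1, Finset.sum_apply]
  rfl

/-- uniqueness of coordinates over a field -/
theorem coords_unique (V : ι → Fin n → ℚ) (Δ : Finset ι) (hcard : Δ.card = n)
    (hli : LinearIndependent ℚ (fun i : {i // i ∈ Δ} => V i)) {K : Type} [Field K] [CharZero K]
    (t t' : ι → K) (ht0 : ∀ v, v ∉ Δ → t v = 0) (ht0' : ∀ v, v ∉ Δ → t' v = 0)
    (h : ∀ a, ∑ v, t v * (V v a : K) = ∑ v, t' v * (V v a : K)) : t = t' := by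
  obtain ⟨c, hc1, hc2, -⟩ := exists_coord V Δ hcard hli
  have hev : ∀ s : ι → K, (∀ v, v ∉ Δ → s v = 0) → ∀ j ∈ Δ,
      ∑ a, ((c j (Pi.single a 1) : ℚ) : K) * (∑ v, s v * (V v a : K)) = s j := by
    intro s hs j hj
    have h1 : ∀ a, ((c j (Pi.single a 1) : ℚ) : K) * (∑ v, s v * (V v a : K)) =
        ∑ v, s v * (((V v a * c j (Pi.single a 1) : ℚ)) : K) := by
      intro a
      rw [Finset.mul_sum]
      refine Finset.sum_congr rfl fun v _ => ?_
      rw [Rat.cast_mul]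
      ring
    rw [Finset.sum_congr rfl fun a _ => h1 a, Finset.sum_comm]
    have h2 : ∀ v, ∑ a, s v * (((V v a * c j (Pi.single a 1) : ℚ)) : K) =
        s v * ((c j (V v) : ℚ) : K) := by
      intro v
      rw [← Finset.mul_sum, ← Rat.cast_sum]
      have h3 : ∑ a, V v a * c j (Pi.single a 1) = c j (V v) := by
        conv_rhs => rw [pi_eq_sum_univ' (V v)]
        rw [map_sum]
        exact Finset.sum_congr rfl fun a _ => by rw [map_smul, smul_eq_mul]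
      rw [h3]
    rw [Finset.sum_congr rfl fun v _ => h2 v, Finset.sum_eq_single j]
    · rw [hc2 j hj j hj, if_pos rfl, Rat.cast_one, mul_one]
    · intro v _ hv
      by_cases hvΔ : v ∈ Δ
      · rw [hc2 j hj v hvΔ, if_neg (Ne.symm hv), Rat.cast_zero, mul_zero]
      · rw [hs v hvΔ, zero_mul]
    · intro h; exact absurd (Finset.mem_univ j) h
  funext v
  by_cases hv : v ∈ Δ
  · rw [← hev t ht0 v hv, ← hev t' ht0' v hv]
    exact Finset.sum_congr rfl fun a _ => by rw [h a]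
  · rw [ht0 v hv, ht0' v hv]

/-- a rational generic vector with its coordinates, for all facets at once -/
theorem exists_generic (V : ι → Fin n → ℚ) (𝒱 : Finset (Finset ι))
    (hcard : ∀ Δ ∈ 𝒱, Δ.card = n)
    (hli : ∀ Δ ∈ 𝒱, LinearIndependent ℚ (fun i : {i // i ∈ Δ} => V i)) :
    ∃ (ξ : Fin n → ℚ) (t : Finset ι → ι → ℚ), (∀ Δ ∈ 𝒱, ∀ v, v ∉ Δ → t Δ v = 0) ∧
      (∀ Δ ∈ 𝒱, ∀ a, ∑ v, t Δ v * V v a = ξ a) ∧ ∀ Δ ∈ 𝒱, ∀ v ∈ Δ, t Δ v ≠ 0 := by
  classical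
  have hc : ∀ Δ : Finset ι, ∃ c : ι → ((Fin n → ℚ) →ₗ[ℚ] ℚ), Δ ∈ 𝒱 → (∀ v, v ∉ Δ → c v = 0) ∧
      (∀ v ∈ Δ, ∀ w ∈ Δ, c v (V w) = if v = w then 1 else 0) ∧ ∀ x, x = ∑ v, c v x • V v := by
    intro Δ
    by_cases h : Δ ∈ 𝒱
    · obtain ⟨c, hc⟩ := exists_coord V Δ (hcard Δ h) (hli Δ h)
      exact ⟨c, fun _ => hc⟩
    · exact ⟨0, fun h' => absurd h' h⟩
  choose c hc using hc
  obtain ⟨ξ, hξ⟩ : ∃ ξ : Fin n → ℚ, ∀ Δ ∈ 𝒱, ∀ v ∈ Δ, c Δ v ξ ≠ 0 := by
    obtain ⟨ξ, hξ⟩ := Module.Dual.exists_forall_ne_zero_of_forall_exists (K := ℚ)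
      (M := Fin n → ℚ) (ι := {p : Finset ι × ι // p.1 ∈ 𝒱 ∧ p.2 ∈ p.1})
      (fun p => c p.1.1 p.1.2) (fun p => ⟨V p.1.2, by
        rw [(hc p.1.1 p.2.1).2.1 p.1.2 p.2.2 p.1.2 p.2.2, if_pos rfl]
        exact one_ne_zero⟩)
    exact ⟨ξ, fun Δ hΔ v hv => hξ ⟨(Δ, v), hΔ, hv⟩⟩
  refine ⟨ξ, fun Δ v => c Δ v ξ, ?_, ?_, hξ⟩
  · intro Δ hΔ v hv
    exact LinearMap.congr_fun ((hc Δ hΔ).1 v hv) ξ
  · intro Δ hΔ a
    have h1 := congrFun ((hc Δ hΔ).2.2 ξ) a
    rw [h1, Finset.sum_apply]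
    rfl

end Pool.Agent.helper11.NSR
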