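import Pool.Agent.helper11.NS.Ring

set_option autoImplicit false

/-!
# The star of a bounded face of a simple polyhedron is a complete fan
-/

namespace Pool.Agent.helper11.NSR

open Finset

/-- pairing of rational vectors -/
def dt {n : ℕ} (k v : Fin n → ℚ) : ℚ := ∑ i, k i * v i

theorem dt_add {n : ℕ} (k k' v : Fin n → ℚ) : dt (k + k') v = dt k v + dt k' v := by
  unfold dt
  rw [← Finset.sum_add_distrib]
  exact Finset.sum_congr rfl fun i _ => by rw [Pi.add_apply, add_mul]

theorem dt_sub {n : ℕ} (k k' v : Fin n → ℚ) : dt (k - k') v = dt k v - dt k' v := by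
  unfold dt
  rw [← Finset.sum_sub_distrib]
  exact Finset.sum_congr rfl fun i _ => by rw [Pi.sub_apply, sub_mul]

theorem dt_smul {n : ℕ} (s : ℚ) (k v : Fin n → ℚ) : dt (s • k) v = s * dt k v := by
  unfold dt
  rw [Finset.mul_sum]
  exact Finset.sum_congr rfl fun i _ => by rw [Pi.smul_apply, smul_eq_mul, mul_assoc]

theorem dt_functional {n : ℕ} (f : (Fin n → ℚ) →ₗ[ℚ] ℚ) (v : Fin n → ℚ) :
    dt (fun a => f (Pi.single a 1)) v = f v := by
  unfold dt
  have h : v = ∑ i, v i • (Pi.single i 1 : Fin n → ℚ) := by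
    funext j
    rw [Finset.sum_apply, Finset.sum_eq_single j]
    · rw [Pi.smul_apply, Pi.single_eq_same, smul_eq_mul, mul_one]
    · intro i _ hi
      rw [Pi.smul_apply, Pi.single_eq_of_ne (Ne.symm hi), smul_zero]
    · intro h; exact absurd (Finset.mem_univ j) h
  conv_rhs => rw [h, map_sum]
  exact Finset.sum_congr rfl fun i _ => by rw [map_smul, smul_eq_mul, mul_comm]

theorem dt_single {n : ℕ} (k : Fin n → ℚ) (a : Fin n) : dt k (Pi.single a 1) = k a := by
  unfold dt
  rw [Finset.sum_eq_single a]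
  · rw [Pi.single_eq_same, mul_one]
  · intro i _ hi
    rw [Pi.single_eq_of_ne hi, mul_zero]
  · intro h; exact absurd (Finset.mem_univ a) h

theorem fan {n : ℕ} {ι : Type} [Fintype ι] [DecidableEq ι] (V : ι → Fin n → ℚ) (h : ι → ℚ)
    (simple : ∀ k : Fin n → ℚ, (∀ i, h i ≤ dt k (V i)) →
      LinearIndependent ℚ (fun i : {i // dt k (V i) = h i} => V i))
    (ρ : Finset ι)
    (bdd : ∀ d : Fin n → ℚ, (∀ i, 0 ≤ dt d (V i)) → (∀ i ∈ ρ, dt d (V i) = 0) → d = 0)
    (Δ : Finset ι) (hρ : ρ ⊆ Δ) (hcard : Δ.card = n) (k : Fin n → ℚ)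
    (hk : ∀ i, h i ≤ dt k (V i)) (hΔ : ∀ i, i ∈ Δ ↔ dt k (V i) = h i)
    (j : ι) (hj : j ∈ Δ) (hjρ : j ∉ ρ) :
    ∃ (j' : ι) (k' : Fin n → ℚ) (d : Fin n → ℚ), j' ∉ Δ ∧
      (∀ i, h i ≤ dt k' (V i)) ∧ (∀ i, i ∈ insert j' (Δ.erase j) ↔ dt k' (V i) = h i) ∧
      (∀ i ∈ Δ.erase j, dt d (V i) = 0) ∧ 0 < dt d (V j) ∧ dt d (V j') < 0 ∧
      ∀ (Δ'' : Finset ι) (k'' : Fin n → ℚ), Δ''.card = n → Δ.erase j ⊆ Δ'' →
        (∀ i, h i ≤ dt k'' (V i)) → (∀ i, i ∈ Δ'' ↔ dt k'' (V i) = h i) →
        Δ'' = Δ ∨ Δ'' = insert j' (Δ.erase j) := by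
  classical
  -- linear independence of the facet
  have hli : LinearIndependent ℚ (fun i : {i // i ∈ Δ} => V i) :=
    (simple k hk).comp (fun i : {i // i ∈ Δ} => (⟨i.1, (hΔ i.1).1 i.2⟩ :
      {i // dt k (V i) = h i})) (fun a b hab => Subtype.ext (Subtype.mk.inj hab))
  obtain ⟨c, hc1, hc2, hc3⟩ := exists_coord V Δ hcard hli
  set d : Fin n → ℚ := fun a => c j (Pi.single a 1) with hd
  have hdV : ∀ x, dt d x = c j x := fun x => dt_functional (c j) x
  have hdj : dt d (V j) = 1 := by rw [hdV, hc2 j hj j hj, if_pos rfl]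
  have hd0 : ∀ i ∈ Δ.erase j, dt d (V i) = 0 := by
    intro i hi
    obtain ⟨hij, hiΔ⟩ := Finset.mem_erase.1 hi
    rw [hdV, hc2 j hj i hiΔ, if_neg (Ne.symm hij)]
  -- a constraint which is violated far away
  have hexB : (Finset.univ.filter fun i => dt d (V i) < 0).Nonempty := by
    by_contra hcon
    rw [Finset.not_nonempty_iff_eq_empty, Finset.filter_eq_empty_iff] at hcon
    have h0 : d = 0 := bdd d (fun i => not_lt.1 (hcon (Finset.mem_univ i))) fun i hi =>
      hd0 i (Finset.mem_erase.2 ⟨fun h' => hjρ (h' ▸ hi), hρ hi⟩)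
    rw [h0] at hdj
    have : dt (0 : Fin n → ℚ) (V j) = 0 := by simp [dt]
    rw [this] at hdj
    exact absurd hdj zero_ne_one
  obtain ⟨j', hj'B, hmin⟩ := Finset.exists_min_image _
    (fun i => (dt k (V i) - h i) / (-dt d (V i))) hexB
  have hdj' : dt d (V j') < 0 := (Finset.mem_filter.1 hj'B).2
  have hj'Δ : j' ∉ Δ := by
    intro hmem
    by_cases hjj : j' = j
    · rw [hjj, hdj] at hdj'; linarith
    · rw [hd0 j' (Finset.mem_erase.2 ⟨hjj, hmem⟩)] at hdj'; exact lt_irrefl _ hdj'
  set s : ℚ := (dt k (V j') - h j') / (-dt d (V j')) with hs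
  have hkj' : h j' < dt k (V j') := lt_of_le_of_ne (hk j') fun h' => hj'Δ ((hΔ j').2 h'.symm)
  have hspos : 0 < s := div_pos (by linarith) (by linarith)
  have hslt : ∀ i, dt d (V i) < 0 → s * (-dt d (V i)) ≤ dt k (V i) - h i := by
    intro i hi
    have h1 : s ≤ (dt k (V i) - h i) / (-dt d (V i)) :=
      hmin i (Finset.mem_filter.2 ⟨Finset.mem_univ i, hi⟩)
    rwa [le_div_iff₀ (by linarith)] at h1
  have hsj' : s * (-dt d (V j')) = dt k (V j') - h j' := by
    rw [hs, div_mul_cancel₀]
    linarith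
  have hval : ∀ (r : ℚ) (i : ι), dt (k + r • d) (V i) = dt k (V i) + r * dt d (V i) := by
    intro r i
    rw [dt_add, dt_smul]
  have hcard' : (insert j' (Δ.erase j)).card = n := by
    rw [Finset.card_insert_of_notMem (fun h => hj'Δ (Finset.mem_of_mem_erase h)),
      Finset.card_erase_of_mem hj, hcard]
    have : 0 < Δ.card := Finset.card_pos.2 ⟨j, hj⟩
    omega
  have hfeas : ∀ i, h i ≤ dt (k + s • d) (V i) := by
    intro i
    rw [hval]
    by_cases hi : dt d (V i) < 0
    · have := hslt i hi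
      linarith
    · have h1 := hk i
      have h2 := mul_nonneg hspos.le (not_lt.1 hi)
      linarith
  have htight : ∀ i ∈ insert j' (Δ.erase j), dt (k + s • d) (V i) = h i := by
    intro i hi
    rw [hval]
    rcases Finset.mem_insert.1 hi with rfl | hi
    · linarith
    · rw [hd0 i hi, mul_zero, add_zero]
      exact (hΔ i).1 (Finset.mem_of_mem_erase hi)
  have hact : ∀ i, i ∈ insert j' (Δ.erase j) ↔ dt (k + s • d) (V i) = h i := by
    have h1 := (simple (k + s • d) hfeas).fintype_card_le_finrank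
    rw [Module.finrank_fin_fun] at h1
    have h2 : insert j' (Δ.erase j) =
        Finset.univ.filter fun i => dt (k + s • d) (V i) = h i := by
      refine Finset.eq_of_subset_of_card_le (fun i hi => Finset.mem_filter.2
        ⟨Finset.mem_univ i, htight i hi⟩) ?_
      rw [hcard', ← Fintype.card_subtype]
      exact h1
    intro i
    rw [h2, Finset.mem_filter]
    exact ⟨fun h => h.2, fun h => ⟨Finset.mem_univ i, h⟩⟩
  refine ⟨j', k + s • d, d, hj'Δ, hfeas, hact, hd0, by rw [hdj]; exact one_pos, hdj', ?_⟩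
  intro Δ'' k'' hcard'' hsub hk'' hΔ''
  -- `k''` lies on the line
  set r : ℚ := dt (k'' - k) (V j) with hr
  have hline : k'' = k + r • d := by
    have h1 : ∀ v ∈ Δ, dt (k'' - k - r • d) (V v) = 0 := by
      intro v hv
      rw [dt_sub, dt_smul]
      by_cases hvj : v = j
      · rw [hvj, hdj, mul_one, ← hr, sub_self]
      · have hve := Finset.mem_erase.2 ⟨hvj, hv⟩
        rw [hd0 v hve, mul_zero, sub_zero, dt_sub, (hΔ'' v).1 (hsub hve), (hΔ v).1 hv, sub_self]
    have h2 : ∀ x, dt (k'' - k - r • d) x = 0 := by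
      intro x
      have h3 : dt (k'' - k - r • d) x = ∑ v, c v x * dt (k'' - k - r • d) (V v) := by
        conv_lhs => rw [hc3 x]
        unfold dt
        simp only [Finset.sum_apply, Pi.smul_apply, smul_eq_mul, Finset.mul_sum]
        rw [Finset.sum_comm]
        exact Finset.sum_congr rfl fun v _ => Finset.sum_congr rfl fun i _ => by ring
      rw [h3]
      refine Finset.sum_eq_zero fun v _ => ?_
      by_cases hv : v ∈ Δ
      · rw [h1 v hv, mul_zero]
      · rw [hc1 v hv, LinearMap.zero_apply, zero_mul]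
    have h4 : k'' - k - r • d = 0 := by
      funext a
      rw [← dt_single (k'' - k - r • d) a, h2]
      rfl
    rw [sub_sub, sub_eq_zero] at h4
    exact h4
  have hr0 : 0 ≤ r := by
    have h1 := hk'' j
    rw [hline, hval, (hΔ j).1 hj, hdj, mul_one] at h1
    linarith
  rcases hr0.eq_or_lt with hr0 | hr0
  · left
    ext i
    rw [hΔ'', hΔ, hline, ← hr0, zero_smul, add_zero]
  · right
    have hrs : r ≤ s := by
      have h1 := hk'' j'
      rw [hline, hval] at h1
      by_contra hcon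
      push Not at hcon
      have h2 : s * (-dt d (V j')) < r * (-dt d (V j')) :=
        mul_lt_mul_of_pos_right hcon (by linarith)
      linarith
    rcases hrs.eq_or_lt with hrs | hrs
    · ext i
      rw [hΔ'', hact, hline, hrs]
    · exfalso
      have h1 : Δ'' ⊆ Δ.erase j := by
        intro i hi
        have h2 := (hΔ'' i).1 hi
        rw [hline, hval] at h2
        by_cases hi0 : dt d (V i) < 0
        · exfalso
          have h3 := hslt i hi0
          have h4 : r * (-dt d (V i)) < s * (-dt d (V i)) :=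
            mul_lt_mul_of_pos_right hrs (by linarith)
          linarith
        · have h3 : 0 ≤ r * dt d (V i) := mul_nonneg hr0.le (not_lt.1 hi0)
          have h4 := hk i
          have h5 : dt k (V i) = h i := by linarith
          have h6 : r * dt d (V i) = 0 := by linarith
          have hiΔ : i ∈ Δ := (hΔ i).2 h5
          refine Finset.mem_erase.2 ⟨?_, hiΔ⟩
          rintro rfl
          rw [hdj, mul_one] at h6
          linarith
      have h2 := Finset.card_le_card h1
      rw [hcard'', Finset.card_erase_of_mem hj, hcard] at h2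
      have : 0 < Δ.card := Finset.card_pos.2 ⟨j, hj⟩
      omega

end Pool.Agent.helper11.NSR
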