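import Pool.Agent.helper11.NS.Fan

set_option autoImplicit false

/-!
# Generic heights: a regular triangulation of the Newton boundary containing a given simplex
-/

namespace Pool.Agent.helper11.NSR

open Finset Filter Topology

theorem dt_sum {n : ℕ} {ι : Type} (s : Finset ι) (k : Fin n → ℚ) (l : ι → ℚ)
    (V : ι → Fin n → ℚ) : dt k (∑ i ∈ s, l i • V i) = ∑ i ∈ s, l i * dt k (V i) := by
  unfold dt
  simp only [Finset.sum_apply, Pi.smul_apply, smul_eq_mul, Finset.mul_sum]
  rw [Finset.sum_comm]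
  exact Finset.sum_congr rfl fun v _ => Finset.sum_congr rfl fun i _ => by ring

theorem generic_heights {n : ℕ} {ι : Type} [Fintype ι] [DecidableEq ι] (V : ι → Fin n → ℚ)
    (Δ₀ : Finset ι) (hcard : Δ₀.card = n)
    (hli : LinearIndependent ℚ (fun i : {i // i ∈ Δ₀} => V i)) (k₀ : Fin n → ℚ)
    (hk₀ : ∀ i, 1 ≤ dt k₀ (V i)) (hk₀' : ∀ i ∈ Δ₀, dt k₀ (V i) = 1) :
    ∃ (om : ι → ℤ) (ε : ℚ), 0 < ε ∧
      (∀ k : Fin n → ℚ, (∀ i, 1 - ε * om i ≤ dt k (V i)) →
        LinearIndependent ℚ (fun i : {i // dt k (V i) = 1 - ε * om i} => V i)) ∧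
      (∀ (k : Fin n → ℚ) (Δ : Finset ι), Δ.card = n → (∀ i, 1 - ε * om i ≤ dt k (V i)) →
        (∀ i, i ∈ Δ ↔ dt k (V i) = 1 - ε * om i) →
        ∃ k' : Fin n → ℚ, (∀ i, 1 ≤ dt k' (V i)) ∧ ∀ i ∈ Δ, dt k' (V i) = 1) ∧
      (∃ k : Fin n → ℚ, (∀ i, 1 - ε * om i ≤ dt k (V i)) ∧
        ∀ i, i ∈ Δ₀ ↔ dt k (V i) = 1 - ε * om i) := by
  classical
  -- relations for dependent sets
  have hrel : ∀ A : Finset ι, ∃ l : ι → ℚ,
      ¬ LinearIndependent ℚ (fun i : {i // i ∈ A} => V i) →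
        (∀ i, i ∉ A → l i = 0) ∧ ∑ i, l i • V i = 0 ∧ ∃ i, i ∉ Δ₀ ∧ l i ≠ 0 := by
    intro A
    by_cases hA : LinearIndependent ℚ (fun i : {i // i ∈ A} => V i)
    · exact ⟨0, fun h => absurd hA h⟩
    rw [Fintype.not_linearIndependent_iff] at hA
    obtain ⟨g, hg, i₀, hi₀⟩ := hA
    set l : ι → ℚ := fun i => if h : i ∈ A then g ⟨i, h⟩ else 0 with hl
    have hl0 : ∀ i, i ∉ A → l i = 0 := fun i hi => dif_neg hi
    have hsum : ∑ i, l i • V i = 0 := by
      rw [← hg, ← Finset.sum_subset (Finset.subset_univ A), ← Finset.sum_coe_sort A]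
      · refine Finset.sum_congr rfl fun i _ => ?_
        rw [hl]
        simp only [dif_pos i.2]
      · intro i _ hi
        rw [hl0 i hi, zero_smul]
    refine ⟨l, fun _ => ⟨hl0, hsum, ?_⟩⟩
    by_contra hcon
    push Not at hcon
    have h1 : ∑ i : {i // i ∈ Δ₀}, l i • V i = 0 := by
      rw [← hsum, ← Finset.sum_subset (Finset.subset_univ Δ₀), ← Finset.sum_coe_sort Δ₀]
      intro i _ hi
      rw [hcon i hi, zero_smul]
    have h2 := Fintype.linearIndependent_iff.1 hli (fun i => l i) h1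
    apply hi₀
    have h3 : l i₀.1 = g i₀ := dif_pos i₀.2
    rw [← h3]
    by_cases hmem : i₀.1 ∈ Δ₀
    · exact h2 ⟨i₀.1, hmem⟩
    · exact hcon _ hmem
  choose l hl using hrel
  -- an injective numbering
  set e : ι → ℕ := fun i => (Fintype.equivFin ι i : ℕ) with he
  have heinj : Function.Injective e := fun i i' h => (Fintype.equivFin ι).injective (Fin.ext h)
  set P : Finset ι → Polynomial ℚ := fun A =>
    ∑ i ∈ Finset.univ.filter (fun i => i ∉ Δ₀), Polynomial.C (l A i) * Polynomial.X ^ e i with hP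
  have hP0 : ∀ A, ¬ LinearIndependent ℚ (fun i : {i // i ∈ A} => V i) → P A ≠ 0 := by
    intro A hA h0
    obtain ⟨-, -, i₁, hi₁, hi₁'⟩ := hl A hA
    apply hi₁'
    have h1 : (P A).coeff (e i₁) = l A i₁ := by
      rw [hP]
      simp only [Polynomial.finset_sum_coeff, Polynomial.coeff_C_mul_X_pow]
      rw [Finset.sum_eq_single i₁]
      · rw [if_pos rfl]
      · intro i _ hi
        rw [if_neg (fun h => hi (heinj h).symm)]
      · intro h
        exact absurd (Finset.mem_filter.2 ⟨Finset.mem_univ i₁, hi₁⟩) h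
    rw [← h1, h0, Polynomial.coeff_zero]
  obtain ⟨s, hs⟩ : ∃ s : ℕ, ∀ A, ¬ LinearIndependent ℚ (fun i : {i // i ∈ A} => V i) →
      (P A).eval ((s : ℚ) + 1) ≠ 0 := by
    by_contra hcon
    push Not at hcon
    set Q : Polynomial ℚ := ∏ A ∈ Finset.univ.filter
      (fun A : Finset ι => ¬ LinearIndependent ℚ (fun i : {i // i ∈ A} => V i)), P A with hQ
    have hQ0 : Q ≠ 0 := Finset.prod_ne_zero_iff.2 fun A hA => hP0 A (Finset.mem_filter.1 hA).2
    apply hQ0
    refine Polynomial.eq_zero_of_infinite_isRoot Q ?_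
    refine (Set.infinite_range_of_injective (f := fun s : ℕ => (s : ℚ) + 1) ?_).mono ?_
    · intro a b hab
      have : (a : ℚ) = b := by simpa using hab
      exact_mod_cast this
    · rintro _ ⟨s, rfl⟩
      obtain ⟨A, hA, hA'⟩ := hcon s
      show Polynomial.eval ((s : ℚ) + 1) Q = 0
      rw [hQ, Polynomial.eval_prod]
      exact Finset.prod_eq_zero (Finset.mem_filter.2 ⟨Finset.mem_univ A, hA⟩) hA'
  set om : ι → ℤ := fun i => if i ∈ Δ₀ then 0 else ((s : ℤ) + 1) ^ e i with hom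
  have hompos : ∀ i, i ∉ Δ₀ → 0 < (om i : ℚ) := by
    intro i hi
    rw [hom]
    simp only [if_neg hi]
    push_cast
    positivity
  have hom0 : ∀ i, i ∈ Δ₀ → om i = 0 := fun i hi => if_pos hi
  have hlom : ∀ A, ¬ LinearIndependent ℚ (fun i : {i // i ∈ A} => V i) →
      ∑ i, l A i * (om i : ℚ) ≠ 0 := by
    intro A hA
    have h1 : ∑ i, l A i * (om i : ℚ) = (P A).eval ((s : ℚ) + 1) := by
      rw [hP]
      simp only [Polynomial.eval_finset_sum, Polynomial.eval_mul, Polynomial.eval_C,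
        Polynomial.eval_pow, Polynomial.eval_X]
      rw [Finset.sum_filter]
      refine Finset.sum_congr rfl fun i _ => ?_
      by_cases hi : i ∈ Δ₀
      · rw [hom0 i hi, Int.cast_zero, mul_zero, if_neg (not_not.2 hi)]
      · rw [if_pos hi, hom]
        simp only [if_neg hi]
        push_cast
        rfl
    rw [h1]
    exact hs A hA
  -- coordinates
  have hc : ∀ Δ : Finset ι, ∃ c : ι → ((Fin n → ℚ) →ₗ[ℚ] ℚ),
      Δ.card = n → LinearIndependent ℚ (fun i : {i // i ∈ Δ} => V i) →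
      (∀ v, v ∉ Δ → c v = 0) ∧
      (∀ v ∈ Δ, ∀ w ∈ Δ, c v (V w) = if v = w then 1 else 0) ∧ ∀ x, x = ∑ v, c v x • V v := by
    intro Δ
    by_cases h : Δ.card = n ∧ LinearIndependent ℚ (fun i : {i // i ∈ Δ} => V i)
    · obtain ⟨c, hc⟩ := exists_coord V Δ h.1 h.2
      exact ⟨c, fun _ _ => hc⟩
    · exact ⟨0, fun h1 h2 => absurd ⟨h1, h2⟩ h⟩
  choose c hc using hc
  -- choice of `ε`
  have hev1 : ∀ᶠ ε : ℚ in 𝓝[>] 0, ∀ (Δ : Finset ι) (i : ι),
      0 < 1 - ∑ j, c Δ j (V i) →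
        ε * ((om i : ℚ) - ∑ j, c Δ j (V i) * om j) < 1 - ∑ j, c Δ j (V i) := by
    rw [eventually_all]
    intro Δ
    rw [eventually_all]
    intro i
    by_cases hd : 0 < 1 - ∑ j, c Δ j (V i)
    · have h1 : Tendsto (fun ε : ℚ => ε * ((om i : ℚ) - ∑ j, c Δ j (V i) * om j)) (𝓝[>] 0)
          (𝓝 (0 * ((om i : ℚ) - ∑ j, c Δ j (V i) * om j))) :=
        ((continuous_id.mul continuous_const).tendsto 0).mono_left nhdsWithin_le_nhds
      rw [zero_mul] at h1
      filter_upwards [h1.eventually_lt_const hd] with ε hε _ using hε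
    · exact Eventually.of_forall fun ε h => absurd h hd
  have hev2 : ∀ᶠ ε : ℚ in 𝓝[>] 0, ∀ A : Finset ι,
      ¬ LinearIndependent ℚ (fun i : {i // i ∈ A} => V i) →
        ∑ i, l A i ≠ ε * ∑ i, l A i * (om i : ℚ) := by
    rw [eventually_all]
    intro A
    by_cases hA : LinearIndependent ℚ (fun i : {i // i ∈ A} => V i)
    · exact Eventually.of_forall fun ε h => absurd hA h
    have hb := hlom A hA
    by_cases ha : ∑ i, l A i = 0
    · filter_upwards [self_mem_nhdsWithin] with ε hε _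
      rw [ha]
      exact (mul_ne_zero (ne_of_gt hε) hb).symm
    · have h1 : Tendsto (fun ε : ℚ => ε * ∑ i, l A i * (om i : ℚ)) (𝓝[>] 0)
          (𝓝 (0 * ∑ i, l A i * (om i : ℚ))) :=
        ((continuous_id.mul continuous_const).tendsto 0).mono_left nhdsWithin_le_nhds
      rw [zero_mul] at h1
      filter_upwards [h1.eventually_ne (Ne.symm ha)] with ε hε _ using hε.symm
  obtain ⟨ε, ⟨hε1, hε2⟩, hε⟩ :=
    ((hev1.and hev2).and (self_mem_nhdsWithin (s := Set.Ioi (0 : ℚ)) (a := 0))).exists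
  have hε0 : 0 < ε := hε
  have hsimple : ∀ k : Fin n → ℚ, (∀ i, 1 - ε * om i ≤ dt k (V i)) →
      LinearIndependent ℚ (fun i : {i // dt k (V i) = 1 - ε * om i} => V i) := by
    intro k _
    by_contra hcon
    set A : Finset ι := Finset.univ.filter fun i => dt k (V i) = 1 - ε * om i with hAdef
    have hmemA : ∀ i, i ∈ A ↔ dt k (V i) = 1 - ε * om i := fun i => by
      rw [hAdef, Finset.mem_filter]
      exact ⟨fun h => h.2, fun h => ⟨Finset.mem_univ i, h⟩⟩
    have hA : ¬ LinearIndependent ℚ (fun i : {i // i ∈ A} => V i) := by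
      intro h
      apply hcon
      exact h.comp (fun i : {i // dt k (V i) = 1 - ε * om i} =>
        (⟨i.1, (hmemA i.1).2 i.2⟩ : {i // i ∈ A})) (fun a b hab => Subtype.ext (Subtype.mk.inj hab))
    obtain ⟨h0, hsum, -⟩ := hl A hA
    apply hε2 A hA
    have h1 := dt_sum Finset.univ k (l A) V
    rw [hsum] at h1
    have h2 : dt k (0 : Fin n → ℚ) = 0 := by simp [dt]
    rw [h2] at h1
    have h3 : ∑ i, l A i * dt k (V i) = ∑ i, (l A i - ε * (l A i * (om i : ℚ))) := by
      refine Finset.sum_congr rfl fun i _ => ?_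
      by_cases hi : i ∈ A
      · rw [(hmemA i).1 hi]; ring
      · rw [h0 i hi]; ring
    rw [h3, Finset.sum_sub_distrib, ← Finset.mul_sum] at h1
    linarith
  refine ⟨om, ε, hε0, hsimple, ?_, ?_⟩
  · intro k Δ hcardΔ hk hΔ
    have hliΔ : LinearIndependent ℚ (fun i : {i // i ∈ Δ} => V i) :=
      (hsimple k hk).comp (fun i : {i // i ∈ Δ} => (⟨i.1, (hΔ i.1).1 i.2⟩ :
        {i // dt k (V i) = 1 - ε * om i})) (fun a b hab => Subtype.ext (Subtype.mk.inj hab))
    obtain ⟨hc1, hc2, hc3⟩ := hc Δ hcardΔ hliΔ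
    have hk' : ∀ v, dt (fun a => ∑ j, c Δ j (Pi.single a 1)) v = ∑ j, c Δ j v := by
      intro v
      have h1 := dt_functional (∑ j, c Δ j) v
      rw [LinearMap.sum_apply] at h1
      rw [← h1]
      congr 1
      funext a
      rw [LinearMap.sum_apply]
    refine ⟨fun a => ∑ j, c Δ j (Pi.single a 1), fun i => ?_, fun i hi => ?_⟩
    · rw [hk']
      by_contra hlt
      push Not at hlt
      have h1 := hε1 Δ i (by linarith)
      have h2 := hk i
      have h3 : dt k (V i) = ∑ j, c Δ j (V i) - ε * ∑ j, c Δ j (V i) * om j := by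
        conv_lhs => rw [hc3 (V i)]
        rw [dt_sum Finset.univ k (fun j => c Δ j (V i)) V, Finset.mul_sum,
          ← Finset.sum_sub_distrib]
        refine Finset.sum_congr rfl fun j _ => ?_
        by_cases hj : j ∈ Δ
        · rw [(hΔ j).1 hj]; ring
        · rw [hc1 j hj, LinearMap.zero_apply]; ring
      rw [h3] at h2
      have h4 : ε * ((om i : ℚ) - ∑ j, c Δ j (V i) * om j) =
          ε * om i - ε * ∑ j, c Δ j (V i) * om j := by ring
      rw [h4] at h1
      linarith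
    · rw [hk', Finset.sum_eq_single i]
      · rw [hc2 i hi i hi, if_pos rfl]
      · intro j _ hj
        by_cases hjΔ : j ∈ Δ
        · rw [hc2 j hjΔ i hi, if_neg hj]
        · rw [hc1 j hjΔ, LinearMap.zero_apply]
      · intro h; exact absurd (Finset.mem_univ i) h
  · refine ⟨k₀, fun i => ?_, fun i => ?_⟩
    · have h1 := hk₀ i
      by_cases hi : i ∈ Δ₀
      · rw [hom0 i hi, Int.cast_zero, mul_zero, sub_zero]; exact h1
      · have := mul_pos hε0 (hompos i hi)
        linarith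
    · constructor
      · intro hi
        rw [hk₀' i hi, hom0 i hi, Int.cast_zero, mul_zero, sub_zero]
      · intro h
        by_contra hi
        have h1 := hk₀ i
        have := mul_pos hε0 (hompos i hi)
        linarith

end Pool.Agent.helper11.NSR
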