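import Mathlib

set_option autoImplicit false

/-!
# Lattice indices and duality
-/

namespace Pool.Agent.helper11.NSR.Lat

open AddSubgroup

variable {m : ℕ}

/-- the saturation of a subgroup of `ℤ^m` -/
def sat (L : AddSubgroup (Fin m → ℤ)) : AddSubgroup (Fin m → ℤ) where
  carrier := {x | ∃ c : ℤ, c ≠ 0 ∧ c • x ∈ L}
  zero_mem' := ⟨1, one_ne_zero, by rw [smul_zero]; exact L.zero_mem⟩
  add_mem' := by
    rintro x y ⟨c, hc, hx⟩ ⟨d, hd, hy⟩
    refine ⟨c * d, mul_ne_zero hc hd, ?_⟩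
    rw [smul_add]
    refine L.add_mem ?_ ?_
    · rw [mul_comm, mul_smul]; exact L.zsmul_mem hx d
    · rw [mul_smul]; exact L.zsmul_mem hy c
  neg_mem' := by
    rintro x ⟨c, hc, hx⟩
    exact ⟨c, hc, by rw [smul_neg]; exact L.neg_mem hx⟩

/-- the annihilator -/
def ann (L : AddSubgroup (Fin m → ℤ)) : AddSubgroup (Fin m → ℤ) where
  carrier := {k | ∀ x ∈ L, k ⬝ᵥ x = 0}
  zero_mem' := fun x _ => zero_dotProduct x
  add_mem' := fun {k k'} hk hk' x hx => by rw [add_dotProduct, hk x hx, hk' x hx, add_zero]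
  neg_mem' := fun {k} hk x hx => by rw [neg_dotProduct, hk x hx, neg_zero]

/-- index of a subgroup in its saturation -/
noncomputable def idx (L : AddSubgroup (Fin m → ℤ)) : ℕ := L.relIndex (sat L)

theorem le_sat (L : AddSubgroup (Fin m → ℤ)) : L ≤ sat L := fun x hx =>
  ⟨1, one_ne_zero, by rw [one_smul]; exact hx⟩

theorem mem_sat_of_smul {L : AddSubgroup (Fin m → ℤ)} {x : Fin m → ℤ} {c : ℤ} (hc : c ≠ 0)
    (h : c • x ∈ sat L) : x ∈ sat L := by
  obtain ⟨d, hd, hx⟩ := h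
  exact ⟨d * c, mul_ne_zero hd hc, by rw [mul_smul]; exact hx⟩

theorem sat_mono {L L' : AddSubgroup (Fin m → ℤ)} (h : L ≤ L') : sat L ≤ sat L' :=
  fun _ ⟨c, hc, hx⟩ => ⟨c, hc, h hx⟩

theorem ann_sat {L : AddSubgroup (Fin m → ℤ)} {k x : Fin m → ℤ} (hk : k ∈ ann L)
    (hx : x ∈ sat L) : k ⬝ᵥ x = 0 := by
  obtain ⟨c, hc, hx⟩ := hx
  have h1 := hk _ hx
  rw [dotProduct_smul, smul_eq_mul] at h1
  exact (mul_eq_zero.1 h1).resolve_left hc

/-- adding one vector -/
theorem relIndex_step (L S : AddSubgroup (Fin m → ℤ)) (hLS : L ≤ S) (v : Fin m → ℤ)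
    (hv : ∀ c : ℤ, c • v ∈ S → c = 0) :
    (L ⊔ zmultiples v).relIndex (S ⊔ zmultiples v) = L.relIndex S := by
  have h1 : S ⊔ zmultiples v = S ⊔ (L ⊔ zmultiples v) := by
    rw [← sup_assoc, sup_eq_left.2 hLS]
  rw [h1, AddSubgroup.relIndex_sup_right, ← AddSubgroup.inf_relIndex_right]
  congr 1
  ext x
  constructor
  · rintro ⟨hx1, hx2⟩
    obtain ⟨l, hl, z, hz, rfl⟩ := AddSubgroup.mem_sup.1 hx1
    obtain ⟨c, rfl⟩ := AddSubgroup.mem_zmultiples_iff.1 hz
    have h2 : c • v ∈ S := by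
      have := S.sub_mem hx2 (hLS hl)
      rwa [add_sub_cancel_left] at this
    rw [hv c h2, zero_smul, add_zero]
    exact hl
  · intro hx
    exact ⟨AddSubgroup.mem_sup_left hx, hLS hx⟩

/-- cyclic steps -/
theorem relIndex_cyclic (S : AddSubgroup (Fin m → ℤ)) (u : Fin m → ℤ)
    (hu : ∀ c : ℤ, c • u ∈ S → c = 0) (c : ℤ) :
    (S ⊔ zmultiples (c • u)).relIndex (S ⊔ zmultiples u) = c.natAbs := by
  have h1 : S ⊔ zmultiples u = zmultiples u ⊔ (S ⊔ zmultiples (c • u)) := by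
    apply le_antisymm
    · exact sup_le (le_sup_left.trans le_sup_right) le_sup_left
    · refine sup_le le_sup_right (sup_le le_sup_left ?_)
      rw [AddSubgroup.zmultiples_le]
      exact AddSubgroup.mem_sup_right (AddSubgroup.zsmul_mem _ (AddSubgroup.mem_zmultiples u) c)
  rw [h1, AddSubgroup.relIndex_sup_right, ← AddSubgroup.inf_relIndex_right]
  have h2 : (S ⊔ zmultiples (c • u)) ⊓ zmultiples u = zmultiples (c • u) := by
    ext x
    constructor
    · rintro ⟨hx1, hx2⟩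
      obtain ⟨l, hl, z, hz, rfl⟩ := AddSubgroup.mem_sup.1 hx1
      obtain ⟨d, hd⟩ := AddSubgroup.mem_zmultiples_iff.1 hx2
      obtain ⟨e, rfl⟩ := AddSubgroup.mem_zmultiples_iff.1 hz
      have h3 : (d - e * c) • u ∈ S := by
        have : (d - e * c) • u = l := by
          rw [sub_smul, hd, mul_smul, add_sub_cancel_right]
        rw [this]; exact hl
      have h4 := hu _ h3
      have h5 : l = 0 := by
        have : (d - e * c) • u = l := by
          rw [sub_smul, hd, mul_smul, add_sub_cancel_right]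
        rw [← this, h4, zero_smul]
      rw [h5, zero_add]
      exact hz
    · intro hx
      refine ⟨AddSubgroup.mem_sup_right hx, ?_⟩
      obtain ⟨e, rfl⟩ := AddSubgroup.mem_zmultiples_iff.1 hx
      exact AddSubgroup.zsmul_mem _ (AddSubgroup.zsmul_mem _ (AddSubgroup.mem_zmultiples u) c) e
  rw [h2]
  set f : ℤ →+ (Fin m → ℤ) := (zmultiplesHom _) u with hf
  have hinj : Function.Injective f := by
    rw [injective_iff_map_eq_zero]
    intro a ha
    rw [hf, zmultiplesHom_apply] at ha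
    exact hu a (ha ▸ S.zero_mem)
  have h3 : zmultiples (c • u) = (zmultiples c).map f := by
    rw [AddMonoidHom.map_zmultiples]
    rfl
  have h4 : zmultiples u = (⊤ : AddSubgroup ℤ).map f := by
    ext x
    rw [AddSubgroup.mem_zmultiples_iff]
    constructor
    · rintro ⟨k, rfl⟩
      exact ⟨k, trivial, rfl⟩
    · rintro ⟨k, -, rfl⟩
      exact ⟨k, rfl⟩
  rw [h3, h4, AddSubgroup.relIndex_map_map_of_injective _ _ hinj, AddSubgroup.relIndex_top_right,
    Int.index_zmultiples]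

/-- A primitive vector of a one-step extension and a dual functional. -/
theorem exists_primitive (L : AddSubgroup (Fin m → ℤ)) (v κ : Fin m → ℤ) (hκ : κ ∈ ann L)
    (hκv : κ ⬝ᵥ v ≠ 0) :
    ∃ u ∈ sat (L ⊔ zmultiples v), sat (L ⊔ zmultiples v) = sat L ⊔ zmultiples u ∧
      (∃ c : ℤ, κ ⬝ᵥ v = c * (κ ⬝ᵥ u) ∧ v - c • u ∈ sat L) ∧
      ∃ k ∈ ann (sat L), k ⬝ᵥ u = 1 := by
  set S := sat L with hS
  set S' := sat (L ⊔ zmultiples v) with hS'
  have hvS' : v ∈ S' := le_sat _ (AddSubgroup.mem_sup_right (AddSubgroup.mem_zmultiples v))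
  have hSS' : S ≤ S' := sat_mono le_sup_left
  have hκS : ∀ x ∈ S, κ ⬝ᵥ x = 0 := fun x hx => ann_sat hκ hx
  have hker : ∀ x ∈ S', κ ⬝ᵥ x = 0 → x ∈ S := by
    rintro x ⟨d, hd, hx⟩ hx0
    obtain ⟨l, hl, z, hz, hlz⟩ := AddSubgroup.mem_sup.1 hx
    obtain ⟨c, rfl⟩ := AddSubgroup.mem_zmultiples_iff.1 hz
    have h1 : κ ⬝ᵥ (l + c • v) = 0 := by rw [hlz, dotProduct_smul, hx0, smul_zero]
    rw [dotProduct_add, hκ l hl, zero_add, dotProduct_smul, smul_eq_mul] at h1
    have hc : c = 0 := (mul_eq_zero.1 h1).resolve_right hκv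
    rw [hc, zero_smul, add_zero] at hlz
    exact ⟨d, hd, by rw [← hlz]; exact hl⟩
  -- the image of `κ`
  set φ : (Fin m → ℤ) →+ ℤ :=
    { toFun := fun x => κ ⬝ᵥ x
      map_zero' := dotProduct_zero κ
      map_add' := fun x y => dotProduct_add κ x y } with hφ
  obtain ⟨e, he⟩ := Int.subgroup_cyclic (S'.map φ)
  have heu : e ∈ S'.map φ := by rw [he]; exact AddSubgroup.subset_closure rfl
  obtain ⟨u, huS', hue⟩ := heu
  have hue' : κ ⬝ᵥ u = e := hue
  have hdiv : ∀ x ∈ S', ∃ c : ℤ, κ ⬝ᵥ x = c * e := by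
    intro x hx
    have h1 : φ x ∈ S'.map φ := ⟨x, hx, rfl⟩
    rw [he, ← AddSubgroup.zmultiples_eq_closure, AddSubgroup.mem_zmultiples_iff] at h1
    obtain ⟨c, hc⟩ := h1
    exact ⟨c, by rw [← smul_eq_mul, hc]; rfl⟩
  have he0 : e ≠ 0 := by
    intro h
    obtain ⟨c, hc⟩ := hdiv v hvS'
    rw [h, mul_zero] at hc
    exact hκv hc
  have hdec : ∀ x ∈ S', ∀ c : ℤ, κ ⬝ᵥ x = c * e → x - c • u ∈ S := by
    intro x hx c hc
    refine hker _ (S'.sub_mem hx (S'.zsmul_mem huS' c)) ?_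
    rw [dotProduct_sub, dotProduct_smul, hc, hue', smul_eq_mul, sub_self]
  have hS'eq : S' = S ⊔ zmultiples u := by
    apply le_antisymm
    · intro x hx
      obtain ⟨c, hc⟩ := hdiv x hx
      have h1 := hdec x hx c hc
      rw [AddSubgroup.mem_sup]
      exact ⟨x - c • u, h1, c • u, AddSubgroup.zsmul_mem _ (AddSubgroup.mem_zmultiples u) c,
        sub_add_cancel _ _⟩
    · refine sup_le hSS' ?_
      rw [AddSubgroup.zmultiples_le]
      exact huS'
  refine ⟨u, huS', hS'eq, ?_, ?_⟩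
  · obtain ⟨c, hc⟩ := hdiv v hvS'
    exact ⟨c, by rw [hue']; exact hc, hdec v hvS' c hc⟩
  · -- the dual functional
    set N : Submodule ℤ (Fin m → ℤ) := AddSubgroup.toIntSubmodule S' with hN
    have htf : Module.IsTorsionFree ℤ ((Fin m → ℤ) ⧸ N) := by
      refine Module.IsTorsionFree.of_smul_eq_zero fun r x h => ?_
      by_cases hr : r = 0
      · exact Or.inl hr
      right
      obtain ⟨y, rfl⟩ := N.mkQ_surjective x
      rw [← map_smul, Submodule.mkQ_apply, Submodule.Quotient.mk_eq_zero] at h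
      rw [Submodule.mkQ_apply, Submodule.Quotient.mk_eq_zero]
      exact mem_sat_of_smul hr h
    have hfree : Module.Free ℤ ((Fin m → ℤ) ⧸ N) := Module.free_of_finite_type_torsion_free'
    obtain ⟨σ, hσ⟩ := Module.projective_lifting_property N.mkQ LinearMap.id (N.mkQ_surjective)
    have hσ' : ∀ x, N.mkQ (σ x) = x := fun x => LinearMap.congr_fun hσ x
    set ρ : (Fin m → ℤ) →ₗ[ℤ] (Fin m → ℤ) := LinearMap.id - σ.comp N.mkQ with hρ
    have hρS' : ∀ x, ρ x ∈ S' := by
      intro x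
      have h1 : N.mkQ (ρ x) = 0 := by
        rw [hρ, LinearMap.sub_apply, map_sub, LinearMap.comp_apply, hσ', LinearMap.id_apply,
          sub_self]
      rw [Submodule.mkQ_apply, Submodule.Quotient.mk_eq_zero] at h1
      exact h1
    have hρid : ∀ x ∈ S', ρ x = x := by
      intro x hx
      have h1 : N.mkQ x = 0 := by
        rw [Submodule.mkQ_apply, Submodule.Quotient.mk_eq_zero]
        exact hx
      rw [hρ, LinearMap.sub_apply, LinearMap.comp_apply, h1, map_zero, sub_zero,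
        LinearMap.id_apply]
    choose q hq using fun x => hdiv (ρ x) (hρS' x)
    set k : Fin m → ℤ := fun i => q (Pi.single i 1) with hk
    have hkx : ∀ x, (k ⬝ᵥ x) * e = κ ⬝ᵥ ρ x := by
      intro x
      have h1 : ρ x = ∑ i, x i • ρ (Pi.single i 1) := by
        conv_lhs => rw [pi_eq_sum_univ' x]
        rw [map_sum]
        exact Finset.sum_congr rfl fun i _ => map_smul _ _ _
      rw [h1, dotProduct_sum, dotProduct, Finset.sum_mul]
      refine Finset.sum_congr rfl fun i _ => ?_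
      rw [dotProduct_smul, smul_eq_mul, hq (Pi.single i 1), hk]
      ring
    refine ⟨k, fun x hx => ?_, ?_⟩
    · have h1 := hkx x
      rw [hρid x (hSS' hx), hκS x hx] at h1
      exact (mul_eq_zero.1 h1).resolve_right he0
    · have h1 := hkx u
      rw [hρid u huS', hue'] at h1
      exact mul_right_cancel₀ he0 (h1.trans (one_mul e).symm)

/-- index of a one-step extension -/
theorem idx_step (L : AddSubgroup (Fin m → ℤ)) (v u : Fin m → ℤ) (c : ℤ)
    (hu : ∀ d : ℤ, d • u ∈ sat L → d = 0) (hv : ∀ d : ℤ, d • v ∈ sat L → d = 0)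
    (hS' : sat (L ⊔ zmultiples v) = sat L ⊔ zmultiples u) (hc : v - c • u ∈ sat L) :
    idx (L ⊔ zmultiples v) = idx L * c.natAbs := by
  have h1 : sat L ⊔ zmultiples v = sat L ⊔ zmultiples (c • u) := by
    apply le_antisymm
    · refine sup_le le_sup_left ?_
      rw [AddSubgroup.zmultiples_le, AddSubgroup.mem_sup]
      exact ⟨v - c • u, hc, c • u, AddSubgroup.mem_zmultiples _, sub_add_cancel _ _⟩
    · refine sup_le le_sup_left ?_
      rw [AddSubgroup.zmultiples_le, AddSubgroup.mem_sup]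
      exact ⟨-(v - c • u), (sat L).neg_mem hc, v, AddSubgroup.mem_zmultiples _, by abel⟩
  have h2 : L ⊔ zmultiples v ≤ sat L ⊔ zmultiples v := sup_le_sup_right (le_sat L) _
  have h3 : sat L ⊔ zmultiples v ≤ sat (L ⊔ zmultiples v) :=
    sup_le (sat_mono le_sup_left) (le_sup_right.trans (le_sat _))
  rw [idx, ← AddSubgroup.relIndex_mul_relIndex _ _ _ h2 h3,
    relIndex_step L (sat L) (le_sat L) v hv, h1, hS', relIndex_cyclic _ u hu]
  rfl

/-- Duality between the index of a set of vectors and the index of a set of functionals. -/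
theorem idx_duality (L G : AddSubgroup (Fin m → ℤ)) (v κ : Fin m → ℤ) (hκ : κ ∈ ann L)
    (hκv : κ ⬝ᵥ v ≠ 0) (h1 : sat G = ann (L ⊔ zmultiples v))
    (h2 : sat (G ⊔ zmultiples κ) = ann L) :
    idx (G ⊔ zmultiples κ) * idx (L ⊔ zmultiples v) = idx G * idx L * (κ ⬝ᵥ v).natAbs := by
  obtain ⟨u, huS', hS', ⟨c, hc, hcu⟩, k, hk, hku⟩ := exists_primitive L v κ hκ hκv
  have hu : ∀ d : ℤ, d • u ∈ sat L → d = 0 := by
    intro d hd
    have h3 := hk _ hd
    rw [dotProduct_smul, hku, smul_eq_mul, mul_one] at h3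
    exact h3
  have hv : ∀ d : ℤ, d • v ∈ sat L → d = 0 := by
    intro d hd
    have h3 := ann_sat hκ hd
    rw [dotProduct_smul, smul_eq_mul] at h3
    exact (mul_eq_zero.1 h3).resolve_right hκv
  have hI1 := idx_step L v u c hu hv hS' hcu
  -- functionals
  have hkill : ∀ a ∈ sat G, a ⬝ᵥ u = 0 := by
    intro a ha
    rw [h1] at ha
    exact ann_sat ha huS'
  have hkA : k ∈ ann L := fun x hx => hk x (le_sat L hx)
  have hA : sat (G ⊔ zmultiples κ) = sat G ⊔ zmultiples k := by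
    rw [h2]
    apply le_antisymm
    · intro a ha
      rw [AddSubgroup.mem_sup]
      refine ⟨a - (a ⬝ᵥ u) • k, ?_, (a ⬝ᵥ u) • k,
        AddSubgroup.zsmul_mem _ (AddSubgroup.mem_zmultiples k) _, sub_add_cancel _ _⟩
      rw [h1]
      have h3 : ∀ x ∈ sat (L ⊔ zmultiples v), (a - (a ⬝ᵥ u) • k) ⬝ᵥ x = 0 := by
        intro x hx
        rw [hS'] at hx
        obtain ⟨y, hy, z, hz, rfl⟩ := AddSubgroup.mem_sup.1 hx
        obtain ⟨d, rfl⟩ := AddSubgroup.mem_zmultiples_iff.1 hz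
        rw [dotProduct_add, sub_dotProduct, smul_dotProduct, ann_sat ha hy, hk y hy,
          dotProduct_smul, sub_dotProduct, smul_dotProduct, hku]
        simp
      exact fun x hx => h3 x (le_sat _ hx)
    · refine sup_le ?_ ?_
      · rw [← h2]
        exact sat_mono le_sup_left
      · rw [AddSubgroup.zmultiples_le]
        exact hkA
  have hk0 : ∀ d : ℤ, d • k ∈ sat G → d = 0 := by
    intro d hd
    have h3 := hkill _ hd
    rw [smul_dotProduct, hku, smul_eq_mul, mul_one] at h3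
    exact h3
  have hκ0 : ∀ d : ℤ, d • κ ∈ sat G → d = 0 := by
    intro d hd
    rw [h1] at hd
    have h3 := hd v (AddSubgroup.mem_sup_right (AddSubgroup.mem_zmultiples v))
    rw [smul_dotProduct, smul_eq_mul] at h3
    exact (mul_eq_zero.1 h3).resolve_right hκv
  have hκk : κ - (κ ⬝ᵥ u) • k ∈ sat G := by
    rw [h1]
    have h3 : ∀ x ∈ sat (L ⊔ zmultiples v), (κ - (κ ⬝ᵥ u) • k) ⬝ᵥ x = 0 := by
      intro x hx
      rw [hS'] at hx
      obtain ⟨y, hy, z, hz, rfl⟩ := AddSubgroup.mem_sup.1 hx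
      obtain ⟨d, rfl⟩ := AddSubgroup.mem_zmultiples_iff.1 hz
      rw [dotProduct_add, sub_dotProduct, smul_dotProduct, ann_sat hκ hy, hk y hy,
        dotProduct_smul, sub_dotProduct, smul_dotProduct, hku]
      simp
    exact fun x hx => h3 x (le_sat _ hx)
  have hI2 := idx_step G κ k (κ ⬝ᵥ u) hk0 hκ0 hA hκk
  rw [hI1, hI2, hc, Int.natAbs_mul]
  ring

/-- pyramids of height one -/
theorem idx_apex (L : AddSubgroup (Fin m → ℤ)) (v κ : Fin m → ℤ) (hκ : κ ∈ ann L)
    (hκv : κ ⬝ᵥ v = 1) : idx (L ⊔ zmultiples v) = idx L := by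
  have hκv0 : κ ⬝ᵥ v ≠ 0 := by rw [hκv]; exact one_ne_zero
  obtain ⟨u, huS', hS', ⟨c, hc, hcu⟩, k, hk, hku⟩ := exists_primitive L v κ hκ hκv0
  have hu : ∀ d : ℤ, d • u ∈ sat L → d = 0 := by
    intro d hd
    have h3 := hk _ hd
    rw [dotProduct_smul, hku, smul_eq_mul, mul_one] at h3
    exact h3
  have hv : ∀ d : ℤ, d • v ∈ sat L → d = 0 := by
    intro d hd
    have h3 := ann_sat hκ hd
    rw [dotProduct_smul, hκv, smul_eq_mul, mul_one] at h3
    exact h3
  rw [idx_step L v u c hu hv hS' hcu]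
  rw [hκv] at hc
  have h1 : c.natAbs = 1 := Int.isUnit_iff_natAbs_eq.1 (IsUnit.of_mul_eq_one _ hc.symm)
  rw [h1, mul_one]

theorem idx_bot : idx (⊥ : AddSubgroup (Fin m → ℤ)) = 1 := by
  rw [idx, AddSubgroup.relIndex_eq_one]
  rintro x ⟨c, hc, hx⟩
  rw [AddSubgroup.mem_bot] at hx ⊢
  exact (smul_eq_zero.1 hx).resolve_left hc

theorem idx_sat (L : AddSubgroup (Fin m → ℤ)) (h : sat L = L) : idx L = 1 := by
  rw [idx, h, AddSubgroup.relIndex_self]

/-- the index is positive -/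
theorem idx_ne_zero (L : AddSubgroup (Fin m → ℤ)) : idx L ≠ 0 := by
  have hfin : Module.Finite ℤ (AddSubgroup.toIntSubmodule (sat L)) := inferInstance
  have hfin' : Module.Finite ℤ (sat L) := hfin
  have hfin2 : Module.Finite ℤ ((sat L) ⧸ (L.addSubgroupOf (sat L))) := by
    refine Module.Finite.of_surjective
      ((QuotientAddGroup.mk' (L.addSubgroupOf (sat L))).toIntLinearMap) ?_
    exact QuotientAddGroup.mk'_surjective _
  have htor : Module.IsTorsion ℤ ((sat L) ⧸ (L.addSubgroupOf (sat L))) := by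
    rintro x
    obtain ⟨⟨y, c, hc, hy⟩, rfl⟩ := QuotientAddGroup.mk'_surjective _ x
    refine ⟨⟨c, mem_nonZeroDivisors_of_ne_zero hc⟩, ?_⟩
    change c • (QuotientAddGroup.mk' (L.addSubgroupOf (sat L))) _ = 0
    rw [← map_zsmul, QuotientAddGroup.mk'_apply, QuotientAddGroup.eq_zero_iff,
      AddSubgroup.mem_addSubgroupOf]
    exact hy
  have := Module.finite_of_fg_torsion _ htor
  exact AddSubgroup.index_ne_zero_of_finite

end Pool.Agent.helper11.NSR.Lat
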