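import Mathlib
import Pool.Agent.helper61.DL.Defs2
import Pool.Agent.helper40.DL.V

set_option autoImplicit false

/-! MP_6163c8_ag, lemma (H1): the simple polyhedra of a regular triangulation along the segment
of height functions from `1` to `h`. -/

namespace Pool.Agent.helper11.NSR.Theta

open Finset Pool.Agent.helper61.DL Pool.Agent.helper40.DL

variable {n : ℕ} {ι : Type} [Fintype ι] [DecidableEq ι]

omit [DecidableEq ι] in
/-- First hit in the direction `d`. -/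
lemma first_hit (V : ι → Fin n → ℝ) (h : ι → ℝ) (k d : Fin n → ℝ) (hk : ∀ i, h i ≤ k ⬝ᵥ V i)
    (hd : ∀ i, k ⬝ᵥ V i = h i → 0 ≤ d ⬝ᵥ V i) (i₁ : ι) (hi₁ : d ⬝ᵥ V i₁ < 0) :
    ∃ t : ℝ, 0 < t ∧ (∀ i, h i ≤ (k + t • d) ⬝ᵥ V i) ∧
      ∃ i, d ⬝ᵥ V i < 0 ∧ (k + t • d) ⬝ᵥ V i = h i := by
  classical
  obtain ⟨i₂, hi₂, hmin⟩ := Finset.exists_min_image (univ.filter fun i => d ⬝ᵥ V i < 0)
    (fun i => (k ⬝ᵥ V i - h i) / (-(d ⬝ᵥ V i))) ⟨i₁, by simpa using hi₁⟩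
  have hi₂' : d ⬝ᵥ V i₂ < 0 := by simpa using hi₂
  set t := (k ⬝ᵥ V i₂ - h i₂) / (-(d ⬝ᵥ V i₂)) with ht
  have hne : k ⬝ᵥ V i₂ ≠ h i₂ := fun hc => absurd (hd i₂ hc) (not_le.2 hi₂')
  have hlt : h i₂ < k ⬝ᵥ V i₂ := lt_of_le_of_ne (hk i₂) (Ne.symm hne)
  have ht0 : 0 < t := div_pos (by linarith) (by linarith)
  have hval : ∀ i, (k + t • d) ⬝ᵥ V i = k ⬝ᵥ V i + t * (d ⬝ᵥ V i) := by
    intro i
    rw [add_dotProduct, smul_dotProduct, smul_eq_mul]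
  have ht2 : t * (-(d ⬝ᵥ V i₂)) = k ⬝ᵥ V i₂ - h i₂ := div_mul_cancel₀ _ (by linarith)
  refine ⟨t, ht0, fun i => ?_, i₂, hi₂', ?_⟩
  · rw [hval]
    rcases lt_or_ge (d ⬝ᵥ V i) 0 with h1 | h1
    · have h2 := hmin i (by simpa using h1)
      rw [le_div_iff₀ (by linarith)] at h2
      linarith
    · have := mul_nonneg ht0.le h1
      linarith [hk i]
  · rw [hval]; linarith

omit [Fintype ι] in
/-- Expansion in the basis `V v`, `v ∈ Δ`. -/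
lemma expand (V : ι → Fin n → ℝ) (Δ : Finset ι) (hc : Δ.card = n) (dd : ι → Fin n → ℝ)
    (dual : ∀ u ∈ Δ, ∀ v ∈ Δ, dd u ⬝ᵥ V v = if u = v then 1 else 0) (y : Fin n → ℝ) :
    y = ∑ u ∈ Δ, (dd u ⬝ᵥ y) • V u := by
  classical
  have hli : LinearIndependent ℝ (fun i : {i // i ∈ Δ} => V i) := by
    rw [Fintype.linearIndependent_iff]
    intro g hg i
    have h1 : dd i ⬝ᵥ (∑ v : {i // i ∈ Δ}, g v • V v) = 0 := by rw [hg, dotProduct_zero]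
    rw [dotProduct_sum] at h1
    have h2 : ∀ v : {i // i ∈ Δ}, dd i ⬝ᵥ g v • V v = if v = i then g v else 0 := by
      intro v
      rw [dotProduct_smul, dual i i.2 v v.2, smul_eq_mul]
      by_cases hv : v = i
      · subst hv; simp
      · rw [if_neg hv, if_neg (fun h => hv (Subtype.ext h.symm)), mul_zero]
    rw [Finset.sum_congr rfl fun v _ => h2 v] at h1
    simpa using h1
  have hspan : Submodule.span ℝ (Set.range fun i : {i // i ∈ Δ} => V i) = ⊤ := by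
    refine hli.span_eq_top_of_card_eq_finrank' ?_
    rw [Fintype.card_coe, hc, Module.finrank_fin_fun]
  have hy : y ∈ Submodule.span ℝ (Set.range fun i : {i // i ∈ Δ} => V i) := by
    rw [hspan]; exact Submodule.mem_top
  obtain ⟨g, hg⟩ := (Submodule.mem_span_range_iff_exists_fun ℝ).1 hy
  have h3 : ∀ u : {i // i ∈ Δ}, dd u ⬝ᵥ y = g u := by
    intro u
    rw [← hg, dotProduct_sum]
    have h2 : ∀ v : {i // i ∈ Δ}, dd u ⬝ᵥ g v • V v = if v = u then g v else 0 := by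
      intro v
      rw [dotProduct_smul, dual u u.2 v v.2, smul_eq_mul]
      by_cases hv : v = u
      · subst hv; simp
      · rw [if_neg hv, if_neg (fun h => hv (Subtype.ext h.symm)), mul_zero]
    rw [Finset.sum_congr rfl fun v _ => h2 v]
    simp
  conv_lhs => rw [← hg]
  rw [← Finset.sum_coe_sort Δ]
  exact Finset.sum_congr rfl fun u _ => by rw [h3 u]

/-- Duality theorem of linear programming for the vertices: `y` lies in the cone of some facet. -/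
lemma exists_opt (V : ι → Fin n → ℚ) (h : ι → ℚ)
    (conv : ∀ j, ∃ i, 0 < V i j ∧ ∀ j', j' ≠ j → V i j' = 0)
    (simple : ∀ k : Fin n → ℚ, (∀ i, h i ≤ k ⬝ᵥ V i) →
      LinearIndependent ℚ (fun i : {i // k ⬝ᵥ V i = h i} => V i))
    (kk : Finset ι → Fin n → ℝ) (dd : Finset ι → ι → Fin n → ℝ)
    (kk_le : ∀ Δ ∈ facets V h, ∀ i, (h i : ℝ) ≤ kk Δ ⬝ᵥ (fun j => (V i j : ℝ)))
    (kk_eq : ∀ Δ ∈ facets V h, ∀ i, i ∈ Δ ↔ kk Δ ⬝ᵥ (fun j => (V i j : ℝ)) = h i)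
    (dual : ∀ Δ ∈ facets V h, ∀ u ∈ Δ, ∀ v ∈ Δ,
      dd Δ u ⬝ᵥ (fun j => (V v j : ℝ)) = if u = v then 1 else 0)
    (hne : (facets V h).Nonempty) (y : Fin n → ℝ) (A : Finset ι)
    (hy : y = ∑ i ∈ A, fun j => (V i j : ℝ)) :
    ∃ Δ ∈ facets V h, ∀ u ∈ Δ, 0 ≤ dd Δ u ⬝ᵥ y := by
  classical
  obtain ⟨Δ, hΔ, hmin⟩ := Finset.exists_min_image (facets V h) (fun Δ => kk Δ ⬝ᵥ y) hne
  refine ⟨Δ, hΔ, fun u hu => ?_⟩
  by_contra hneg
  push Not at hneg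
  set d := dd Δ u with hd
  obtain ⟨i₁, hi₁⟩ : ∃ i, d ⬝ᵥ (fun j => (V i j : ℝ)) < 0 := by
    by_contra hc
    push Not at hc
    have : 0 ≤ d ⬝ᵥ y := by
      rw [hy, dotProduct_sum]
      exact Finset.sum_nonneg fun i _ => hc i
    linarith
  have hcΔ := (mem_facets.1 hΔ).1
  obtain ⟨t, ht, hge, i₂, hi₂, hi₂'⟩ := first_hit (fun i j => (V i j : ℝ)) (fun i => (h i : ℝ))
    (kk Δ) d (kk_le Δ hΔ) (fun i hi => by
      have h1 : i ∈ Δ := (kk_eq Δ hΔ i).2 hi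
      rw [hd, dual Δ hΔ u hu i h1]
      split_ifs <;> norm_num) i₁ hi₁
  obtain ⟨Δ', hΔ', hact⟩ := act_real V h conv simple (kk Δ + t • d) hge
  have hi₂Δ : i₂ ∉ Δ := by
    intro hc
    have := dual Δ hΔ u hu i₂ hc
    have hi₂'' : d ⬝ᵥ (fun j => (V i₂ j : ℝ)) < 0 := hi₂
    rw [hd, this] at hi₂''
    split_ifs at hi₂'' <;> linarith
  have hval : ∀ v : Fin n → ℝ, (kk Δ + t • d) ⬝ᵥ v = kk Δ ⬝ᵥ v + t * (d ⬝ᵥ v) := by
    intro v
    rw [add_dotProduct, smul_dotProduct, smul_eq_mul]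
  have hactΔ : ∀ v ∈ Δ, v ≠ u → (kk Δ + t • d) ⬝ᵥ (fun j => (V v j : ℝ)) = h v := by
    intro v hv hvu
    rw [hval, hd, dual Δ hΔ u hu v hv, if_neg (Ne.symm hvu), mul_zero, add_zero]
    exact (kk_eq Δ hΔ v).1 hv
  have hsub : insert i₂ (Δ.erase u) ⊆ Δ' := by
    intro v hv
    rw [Finset.mem_insert, Finset.mem_erase] at hv
    rcases hv with rfl | ⟨hvu, hv⟩
    · exact hact _ hi₂'
    · exact hact _ (hactΔ v hv hvu)
  have hcard : (insert i₂ (Δ.erase u)).card = n := by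
    rw [Finset.card_insert_of_notMem (fun hc => hi₂Δ (Finset.mem_of_mem_erase hc)),
      Finset.card_erase_of_mem hu, hcΔ]
    have : 0 < Δ.card := Finset.card_pos.2 ⟨u, hu⟩
    omega
  have hEq : insert i₂ (Δ.erase u) = Δ' := by
    refine Finset.eq_of_subset_of_card_le hsub ?_
    rw [hcard, (mem_facets.1 hΔ').1]
  have hactΔ' : ∀ v ∈ Δ', (kk Δ + t • d) ⬝ᵥ (fun j => (V v j : ℝ)) = h v := by
    intro v hv
    rw [← hEq, Finset.mem_insert, Finset.mem_erase] at hv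
    rcases hv with rfl | ⟨hvu, hv⟩
    · exact hi₂'
    · exact hactΔ v hv hvu
  have hsame : kk Δ' ⬝ᵥ y = (kk Δ + t • d) ⬝ᵥ y := by
    rw [expand (fun i j => (V i j : ℝ)) Δ' (mem_facets.1 hΔ').1 (dd Δ') (dual Δ' hΔ') y,
      dotProduct_sum, dotProduct_sum]
    refine Finset.sum_congr rfl fun v hv => ?_
    rw [dotProduct_smul, dotProduct_smul, hactΔ' v hv, (kk_eq Δ' hΔ' v).1 hv]
  have h1 := hmin Δ' hΔ'
  rw [hsame, hval] at h1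
  have h2 : t * (d ⬝ᵥ y) < 0 := mul_neg_of_pos_of_neg ht hneg
  linarith

/-- (H1) -/
theorem poly_theta (V : ι → Fin n → ℚ) (h : ι → ℚ)
    (V_nonneg : ∀ i j, 0 ≤ V i j) (conv : ∀ j, ∃ i, 0 < V i j ∧ ∀ j', j' ≠ j → V i j' = 0)
    (simple : ∀ k : Fin n → ℚ, (∀ i, h i ≤ k ⬝ᵥ V i) →
      LinearIndependent ℚ (fun i : {i // k ⬝ᵥ V i = h i} => V i))
    (compat : ∀ (k : Fin n → ℚ) (Δ : Finset ι), Δ.card = n → (∀ i, h i ≤ k ⬝ᵥ V i) →
      (∀ i, i ∈ Δ ↔ k ⬝ᵥ V i = h i) →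
      ∃ k' : Fin n → ℚ, (∀ i, 1 ≤ k' ⬝ᵥ V i) ∧ ∀ i ∈ Δ, k' ⬝ᵥ V i = 1) :
    ∃ (kk kk' : Finset ι → Fin n → ℚ) (dd : Finset ι → ι → Fin n → ℚ),
      (∀ Δ ∈ facets V h, (∀ i, 1 ≤ kk' Δ ⬝ᵥ V i) ∧ ∀ i ∈ Δ, kk' Δ ⬝ᵥ V i = 1) ∧
      ∀ θ : ℝ, 0 < θ → θ ≤ 1 → (∀ i, 0 < 1 - θ * (1 - (h i : ℝ))) →
        Poly (fun i j => (V i j : ℝ)) (fun i => 1 - θ * (1 - (h i : ℝ))) (facets V h)
          (fun Δ => θ • (fun j => (kk Δ j : ℝ)) + (1 - θ) • (fun j => (kk' Δ j : ℝ)))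
          (fun Δ v j => (dd Δ v j : ℝ)) := by
  classical
  have h1 : ∀ Δ : Finset ι, ∃ k : Fin n → ℚ, Δ ∈ facets V h → (∀ i, h i ≤ k ⬝ᵥ V i) ∧
      ∀ i, i ∈ Δ ↔ k ⬝ᵥ V i = h i := by
    intro Δ
    by_cases hΔ : Δ ∈ facets V h
    · obtain ⟨_, k, hk⟩ := mem_facets.1 hΔ
      exact ⟨k, fun _ => hk⟩
    · exact ⟨0, fun hc => absurd hc hΔ⟩
  have h2 : ∀ Δ : Finset ι, ∃ dd : ι → Fin n → ℚ, Δ ∈ facets V h →
      ∀ u ∈ Δ, ∀ v ∈ Δ, dd u ⬝ᵥ V v = if u = v then 1 else 0 := by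
    intro Δ
    by_cases hΔ : Δ ∈ facets V h
    · obtain ⟨dd, hdd⟩ := exists_dual V h simple Δ hΔ
      exact ⟨dd, fun _ => hdd⟩
    · exact ⟨0, fun hc => absurd hc hΔ⟩
  have h3 : ∀ Δ : Finset ι, ∃ k' : Fin n → ℚ, Δ ∈ facets V h →
      (∀ i, 1 ≤ k' ⬝ᵥ V i) ∧ ∀ i ∈ Δ, k' ⬝ᵥ V i = 1 := by
    intro Δ
    by_cases hΔ : Δ ∈ facets V h
    · obtain ⟨hc, k, hk, hk'⟩ := mem_facets.1 hΔ
      obtain ⟨k', hk''⟩ := compat k Δ hc hk hk'
      exact ⟨k', fun _ => hk''⟩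
    · exact ⟨0, fun hc => absurd hc hΔ⟩
  choose kk hkk using h1
  choose dd hdd using h2
  choose kk' hkk' using h3
  have kk_le : ∀ Δ ∈ facets V h, ∀ i, (h i : ℝ) ≤
      (fun j => (kk Δ j : ℝ)) ⬝ᵥ (fun j => (V i j : ℝ)) := by
    intro Δ hΔ i
    rw [cast_dot]
    exact_mod_cast (hkk Δ hΔ).1 i
  have kk_eq : ∀ Δ ∈ facets V h, ∀ i, i ∈ Δ ↔
      (fun j => (kk Δ j : ℝ)) ⬝ᵥ (fun j => (V i j : ℝ)) = h i := by
    intro Δ hΔ i
    rw [cast_dot, (hkk Δ hΔ).2 i]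
    norm_cast
  have dual : ∀ Δ ∈ facets V h, ∀ u ∈ Δ, ∀ v ∈ Δ,
      (fun j => (dd Δ u j : ℝ)) ⬝ᵥ (fun j => (V v j : ℝ)) = if u = v then 1 else 0 := by
    intro Δ hΔ u hu v hv
    have := hdd Δ hΔ u hu v hv
    rw [cast_dot, this]
    split_ifs <;> simp
  have kk'_le : ∀ Δ ∈ facets V h, ∀ i, (1 : ℝ) ≤
      (fun j => (kk' Δ j : ℝ)) ⬝ᵥ (fun j => (V i j : ℝ)) := by
    intro Δ hΔ i
    rw [cast_dot]
    exact_mod_cast (hkk' Δ hΔ).1 i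
  have kk'_eq : ∀ Δ ∈ facets V h, ∀ i ∈ Δ,
      (fun j => (kk' Δ j : ℝ)) ⬝ᵥ (fun j => (V i j : ℝ)) = 1 := by
    intro Δ hΔ i hi
    rw [cast_dot]
    exact_mod_cast (hkk' Δ hΔ).2 i hi
  refine ⟨kk, kk', dd, hkk', fun θ hθ hθ1 hpos => ?_⟩
  set K : Finset ι → Fin n → ℝ :=
    fun Δ => θ • (fun j => (kk Δ j : ℝ)) + (1 - θ) • (fun j => (kk' Δ j : ℝ)) with hK
  have hKval : ∀ Δ v, K Δ ⬝ᵥ v = θ * ((fun j => (kk Δ j : ℝ)) ⬝ᵥ v) +
      (1 - θ) * ((fun j => (kk' Δ j : ℝ)) ⬝ᵥ v) := by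
    intro Δ v
    rw [hK]
    simp only
    rw [add_dotProduct, smul_dotProduct, smul_dotProduct, smul_eq_mul, smul_eq_mul]
  have K_le : ∀ Δ ∈ facets V h, ∀ i, 1 - θ * (1 - (h i : ℝ)) ≤ K Δ ⬝ᵥ (fun j => (V i j : ℝ)) := by
    intro Δ hΔ i
    rw [hKval]
    have g1 := mul_le_mul_of_nonneg_left (kk_le Δ hΔ i) hθ.le
    have g2 := mul_le_mul_of_nonneg_left (kk'_le Δ hΔ i) (by linarith : 0 ≤ 1 - θ)
    linarith
  have K_eq : ∀ Δ ∈ facets V h, ∀ i, i ∈ Δ ↔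
      K Δ ⬝ᵥ (fun j => (V i j : ℝ)) = 1 - θ * (1 - (h i : ℝ)) := by
    intro Δ hΔ i
    rw [hKval]
    constructor
    · intro hi
      rw [(kk_eq Δ hΔ i).1 hi, kk'_eq Δ hΔ i hi]
      ring
    · intro hi
      by_contra hc
      have g1 : (fun j => (kk Δ j : ℝ)) ⬝ᵥ (fun j => (V i j : ℝ)) ≠ h i :=
        fun hh => hc ((kk_eq Δ hΔ i).2 hh)
      have g2 := lt_of_le_of_ne (kk_le Δ hΔ i) (Ne.symm g1)
      have g3 := mul_lt_mul_of_pos_left g2 hθ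
      have g4 := mul_le_mul_of_nonneg_left (kk'_le Δ hΔ i) (by linarith : 0 ≤ 1 - θ)
      linarith
  constructor
  · intro Δ hΔ
    exact (mem_facets.1 hΔ).1
  · exact K_le
  · exact K_eq
  · exact dual
  · -- `act`
    intro k hk
    have hV0 : ∀ i, ∃ j, V i j ≠ 0 := by
      intro i
      by_contra hc
      push Not at hc
      have g1 := hk i
      have g2 : k ⬝ᵥ (fun j => (V i j : ℝ)) = 0 := by
        unfold dotProduct
        refine Finset.sum_eq_zero fun j _ => ?_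
        simp [hc j]
      rw [g2] at g1
      exact absurd (hpos i) (not_lt.2 g1)
    -- the facets are not empty
    have hne : (facets V h).Nonempty := by
      set m : ι → ℚ := fun i => ∑ j, V i j with hm
      have hmpos : ∀ i, 0 < m i := by
        intro i
        obtain ⟨j, hj⟩ := hV0 i
        exact Finset.sum_pos' (fun j _ => V_nonneg i j)
          ⟨j, Finset.mem_univ _, lt_of_le_of_ne (V_nonneg i j) (Ne.symm hj)⟩
      set M : ℚ := ∑ i, |h i| / m i with hM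
      have hMle : ∀ i, h i ≤ M * m i := by
        intro i
        have g1 : |h i| / m i ≤ M :=
          Finset.single_le_sum (f := fun i => |h i| / m i)
            (fun i _ => div_nonneg (abs_nonneg _) (hmpos i).le) (Finset.mem_univ i)
        rw [div_le_iff₀ (hmpos i)] at g1
        exact (le_abs_self _).trans g1
      obtain ⟨Δ, hΔ, -⟩ := act_real V h conv simple (fun _ => (M : ℝ)) (fun i => by
        have g1 := hMle i
        have g2 : (fun _ => (M : ℝ)) ⬝ᵥ (fun j => (V i j : ℝ)) = ((M * m i : ℚ) : ℝ) := by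
          unfold dotProduct
          rw [hm]
          push_cast
          rw [Finset.mul_sum]
        rw [g2]
        exact_mod_cast g1)
      exact ⟨Δ, hΔ⟩
    set A : Finset ι := univ.filter
      (fun i => k ⬝ᵥ (fun j => (V i j : ℝ)) = 1 - θ * (1 - (h i : ℝ))) with hA
    set y : Fin n → ℝ := ∑ i ∈ A, fun j => (V i j : ℝ) with hy
    obtain ⟨Δ, hΔ, hopt⟩ := exists_opt V h conv simple (fun Δ j => (kk Δ j : ℝ))
      (fun Δ v j => (dd Δ v j : ℝ)) kk_le kk_eq dual hne y A hy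
    refine ⟨Δ, hΔ, ?_⟩
    have hexp := expand (fun i j => (V i j : ℝ)) Δ (mem_facets.1 hΔ).1
      (fun v j => (dd Δ v j : ℝ)) (dual Δ hΔ) y
    have hge : K Δ ⬝ᵥ y ≤ k ⬝ᵥ y := by
      rw [hexp, dotProduct_sum, dotProduct_sum]
      refine Finset.sum_le_sum fun u hu => ?_
      rw [dotProduct_smul, dotProduct_smul, smul_eq_mul, smul_eq_mul,
        (K_eq Δ hΔ u).1 hu]
      exact mul_le_mul_of_nonneg_left (hk u) (hopt u hu)
    have hterm : ∀ i ∈ A, k ⬝ᵥ (fun j => (V i j : ℝ)) ≤ K Δ ⬝ᵥ (fun j => (V i j : ℝ)) := by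
      intro i hi
      rw [(Finset.mem_filter.1 hi).2]
      exact K_le Δ hΔ i
    have hsum : k ⬝ᵥ y = K Δ ⬝ᵥ y := by
      refine le_antisymm ?_ hge
      rw [hy, dotProduct_sum, dotProduct_sum]
      exact Finset.sum_le_sum hterm
    rw [hy, dotProduct_sum, dotProduct_sum] at hsum
    have hall := (Finset.sum_eq_sum_iff_of_le hterm).1 hsum
    intro i hi
    have hiA : i ∈ A := Finset.mem_filter.2 ⟨Finset.mem_univ _, hi⟩
    exact (K_eq Δ hΔ i).2 (by rw [← hall i hiA]; exact hi)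
  · intro i j
    exact_mod_cast V_nonneg i j
  · intro j
    obtain ⟨i, hi, hi'⟩ := conv j
    refine ⟨i, by exact_mod_cast hi, fun j' hj' => ?_⟩
    rw [hi' j' hj', Rat.cast_zero]
  · exact hpos

/-- (H1) for the heights `1 - ε * om i`. -/
theorem poly_theta_om (V : ι → Fin n → ℚ) (om : ι → ℤ) (ε : ℚ)
    (V_nonneg : ∀ i j, 0 ≤ V i j) (conv : ∀ j, ∃ i, 0 < V i j ∧ ∀ j', j' ≠ j → V i j' = 0)
    (simple : ∀ k : Fin n → ℚ, (∀ i, 1 - ε * om i ≤ k ⬝ᵥ V i) →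
      LinearIndependent ℚ (fun i : {i // k ⬝ᵥ V i = 1 - ε * om i} => V i))
    (compat : ∀ (k : Fin n → ℚ) (Δ : Finset ι), Δ.card = n → (∀ i, 1 - ε * om i ≤ k ⬝ᵥ V i) →
      (∀ i, i ∈ Δ ↔ k ⬝ᵥ V i = 1 - ε * om i) →
      ∃ k' : Fin n → ℚ, (∀ i, 1 ≤ k' ⬝ᵥ V i) ∧ ∀ i ∈ Δ, k' ⬝ᵥ V i = 1) :
    ∃ (kk kk' : Finset ι → Fin n → ℚ) (dd : Finset ι → ι → Fin n → ℚ),
      (∀ Δ ∈ facets V (fun i => 1 - ε * om i),
        (∀ i, 1 ≤ kk' Δ ⬝ᵥ V i) ∧ ∀ i ∈ Δ, kk' Δ ⬝ᵥ V i = 1) ∧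
      ∀ θ : ℝ, 0 < θ → θ ≤ 1 → (∀ i, 0 < 1 - θ * ε * om i) →
        Poly (fun i j => (V i j : ℝ)) (fun i => 1 - θ * ε * om i)
          (facets V (fun i => 1 - ε * om i))
          (fun Δ => θ • (fun j => (kk Δ j : ℝ)) + (1 - θ) • (fun j => (kk' Δ j : ℝ)))
          (fun Δ v j => (dd Δ v j : ℝ)) := by
  obtain ⟨kk, kk', dd, h1, h2⟩ := poly_theta V (fun i => 1 - ε * om i) V_nonneg conv simple compat
  refine ⟨kk, kk', dd, h1, fun θ hθ hθ1 hpos => ?_⟩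
  have e : (fun i => 1 - θ * (1 - ((1 - ε * om i : ℚ) : ℝ))) =
      (fun i : ι => 1 - θ * ε * (om i : ℝ)) := by
    funext i
    push_cast
    ring
  have h3 := h2 θ hθ hθ1 (fun i => by
    have := congrFun e i
    rw [this]
    exact hpos i)
  rw [e] at h3
  exact h3

end Pool.Agent.helper11.NSR.Theta
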