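import Mathlib

set_option autoImplicit false

/-!
# The cohomology ring of a complete simplicial fan, from the degree map
-/

namespace Pool.Agent.helper11.NSR

open Finset

variable {n : ℕ} {ι : Type} [Fintype ι] [DecidableEq ι]

/-- coordinates with respect to the basis given by a facet -/
theorem exists_coord (V : ι → Fin n → ℚ) (Δ : Finset ι) (hcard : Δ.card = n)
    (hli : LinearIndependent ℚ (fun i : {i // i ∈ Δ} => V i)) :
    ∃ c : ι → ((Fin n → ℚ) →ₗ[ℚ] ℚ), (∀ v, v ∉ Δ → c v = 0) ∧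
      (∀ v ∈ Δ, ∀ w ∈ Δ, c v (V w) = if v = w then 1 else 0) ∧
      ∀ x, x = ∑ v, c v x • V v := by
  have hfin : Fintype.card {i // i ∈ Δ} = Module.finrank ℚ (Fin n → ℚ) := by
    rw [Fintype.card_coe, hcard, Module.finrank_fin_fun]
  have hsp := hli.span_eq_top_of_card_eq_finrank' hfin
  set b : Module.Basis {i // i ∈ Δ} ℚ (Fin n → ℚ) := Module.Basis.mk hli hsp.ge with hb
  have hbv : ∀ i, b i = V i := fun i => Module.Basis.mk_apply hli hsp.ge i
  refine ⟨fun v => if h : v ∈ Δ then b.coord ⟨v, h⟩ else 0, fun v hv => dif_neg hv, ?_, ?_⟩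
  · intro v hv w hw
    simp only [dif_pos hv]
    have h1 : V w = b ⟨w, hw⟩ := (hbv ⟨w, hw⟩).symm
    rw [h1, Module.Basis.coord_apply, Module.Basis.repr_self, Finsupp.single_apply]
    by_cases h : v = w
    · subst h; simp
    · rw [if_neg h, if_neg]
      intro h'
      exact h (congrArg Subtype.val h').symm
  · intro x
    have h1 : ∑ v, (if h : v ∈ Δ then b.coord ⟨v, h⟩ else 0) x • V v =
        ∑ i : {i // i ∈ Δ}, b.coord i x • V i := by
      rw [← Finset.sum_subset (Finset.subset_univ Δ)]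
      · rw [← Finset.sum_coe_sort Δ]
        refine Finset.sum_congr rfl fun i _ => ?_
        rw [dif_pos i.2]
      · intro v _ hv
        rw [dif_neg hv, LinearMap.zero_apply, zero_smul]
    rw [h1]
    conv_lhs => rw [← b.sum_repr x]
    refine Finset.sum_congr rfl fun i _ => ?_
    rw [hbv, Module.Basis.coord_apply]

/-- volume of a facet -/
noncomputable def vol (V : ι → Fin n → ℚ) (Δ : Finset ι) : ℚ :=
  if h : Δ.card = n then |Matrix.det (fun i => V ((Finset.equivFinOfCardEq h).symm i).1)| else 1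

omit [Fintype ι] [DecidableEq ι] in
theorem vol_eq (V : ι → Fin n → ℚ) (Δ : Finset ι) (h : Δ.card = n) (u : Fin n → ι)
    (hu : Function.Injective u) (hmem : ∀ i, u i ∈ Δ) :
    |Matrix.det (fun i => V (u i))| = vol V Δ := by
  rw [vol, dif_pos h]
  set e := Finset.equivFinOfCardEq h
  have hbij : Function.Bijective (fun i => e ⟨u i, hmem i⟩) := by
    refine (Fintype.bijective_iff_injective_and_card _).2 ⟨?_, rfl⟩
    intro i j hij
    have := e.injective hij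
    exact hu (congrArg Subtype.val this)
  set σ : Equiv.Perm (Fin n) := Equiv.ofBijective _ hbij
  have h1 : (fun i => V (u i)) =
      Matrix.submatrix (Matrix.of fun i => V (e.symm i).1) σ id := by
    funext i j
    simp [σ]
  rw [h1, Matrix.det_permute, abs_mul]
  have h2 : |((Equiv.Perm.sign σ : ℤ) : ℚ)| = 1 := by
    rcases Int.units_eq_one_or (Equiv.Perm.sign σ) with h | h <;> rw [h] <;> simp
  rw [h2, one_mul]
  rfl

omit [Fintype ι] [DecidableEq ι] in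
theorem vol_ne_zero (V : ι → Fin n → ℚ) (Δ : Finset ι) (h : Δ.card = n)
    (hli : LinearIndependent ℚ (fun i : {i // i ∈ Δ} => V i)) : vol V Δ ≠ 0 := by
  rw [vol, dif_pos h, abs_ne_zero]
  have h1 : LinearIndependent ℚ (Matrix.row (Matrix.of fun i => V ((Finset.equivFinOfCardEq h).symm i).1)) :=
    hli.comp _ (Finset.equivFinOfCardEq h).symm.injective
  rw [Matrix.linearIndependent_rows_iff_isUnit, Matrix.isUnit_iff_isUnit_det] at h1
  exact h1.ne_zero

/-- volumes of adjacent facets -/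
theorem vol_adj (V : ι → Fin n → ℚ) (Δ : Finset ι) (hcard : Δ.card = n)
    (hli : LinearIndependent ℚ (fun i : {i // i ∈ Δ} => V i)) (j j' : ι) (hj : j ∈ Δ)
    (hj' : j' ∉ Δ) (ℓ : (Fin n → ℚ) →ₗ[ℚ] ℚ) (hℓ : ∀ i ∈ Δ.erase j, ℓ (V i) = 0) :
    vol V (insert j' (Δ.erase j)) * |ℓ (V j)| = vol V Δ * |ℓ (V j')| := by
  obtain ⟨c, hc1, -, hc3⟩ := exists_coord V Δ hcard hli
  set e := Finset.equivFinOfCardEq hcard with he
  set u : Fin n → ι := fun i => (e.symm i).1 with hu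
  have huinj : Function.Injective u := fun i i' h => e.symm.injective (Subtype.ext h)
  have humem : ∀ i, u i ∈ Δ := fun i => (e.symm i).2
  set i₀ := e ⟨j, hj⟩ with hi₀
  have hui₀ : u i₀ = j := by simp [hu, hi₀]
  set u' : Fin n → ι := Function.update u i₀ j' with hu'
  have hu'inj : Function.Injective u' := by
    intro i i' h
    by_cases h1 : i = i₀ <;> by_cases h2 : i' = i₀
    · rw [h1, h2]
    · exfalso
      rw [h1, hu', Function.update_self, Function.update_of_ne h2] at h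
      exact hj' (h ▸ humem i')
    · exfalso
      rw [h2, hu', Function.update_self, Function.update_of_ne h1] at h
      exact hj' (h ▸ humem i)
    · rw [hu', Function.update_of_ne h1, Function.update_of_ne h2] at h
      exact huinj h
  have hu'mem : ∀ i, u' i ∈ insert j' (Δ.erase j) := by
    intro i
    by_cases h1 : i = i₀
    · rw [h1, hu', Function.update_self]; exact Finset.mem_insert_self _ _
    · rw [hu', Function.update_of_ne h1]
      refine Finset.mem_insert_of_mem (Finset.mem_erase.2 ⟨?_, humem i⟩)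
      rw [← hui₀]
      exact fun h => h1 (huinj h)
  have hcard' : (insert j' (Δ.erase j)).card = n := by
    rw [Finset.card_insert_of_notMem (fun h => hj' (Finset.mem_of_mem_erase h)),
      Finset.card_erase_of_mem hj, hcard]
    have : 0 < Δ.card := Finset.card_pos.2 ⟨j, hj⟩
    omega
  rw [← vol_eq V _ hcard' u' hu'inj hu'mem, ← vol_eq V _ hcard u huinj humem]
  -- the functional `x ↦ det (update (V ∘ u) i₀ x)`
  set D : (Fin n → ℚ) → ℚ := fun x => Matrix.det (Function.update (fun i => V (u i)) i₀ x) with hD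
  have hD1 : (fun i => V (u' i)) = Function.update (fun i => V (u i)) i₀ (V j') := by
    funext i
    by_cases h1 : i = i₀
    · subst h1; rw [hu', Function.update_self, Function.update_self]
    · rw [hu', Function.update_of_ne h1, Function.update_of_ne h1]
  have hD2 : (fun i => V (u i)) = Function.update (fun i => V (u i)) i₀ (V j) := by
    funext i
    by_cases h1 : i = i₀
    · subst h1; rw [Function.update_self, hui₀]
    · rw [Function.update_of_ne h1]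
  have hDlin : ∀ x, D x = c j x * D (V j) := by
    intro x
    have h1 : D x = ∑ v, c v x * D (V v) := by
      conv_lhs => rw [hc3 x]
      have hadd : ∀ s : Finset ι, D (∑ v ∈ s, c v x • V v) = ∑ v ∈ s, c v x * D (V v) := by
        intro s
        induction s using Finset.induction_on with
        | empty =>
          rw [Finset.sum_empty, Finset.sum_empty]
          exact (Matrix.detRowAlternating (R := ℚ) (n := Fin n)).map_update_zero _ _
        | insert a s ha ih =>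
          rw [Finset.sum_insert ha, Finset.sum_insert ha, ← ih]
          have e1 := (Matrix.detRowAlternating (R := ℚ) (n := Fin n)).map_update_add
            (fun i => V (u i)) i₀ (c a x • V a) (∑ v ∈ s, c v x • V v)
          have e2 := (Matrix.detRowAlternating (R := ℚ) (n := Fin n)).map_update_smul
            (fun i => V (u i)) i₀ (c a x) (V a)
          rw [e2] at e1
          exact e1
      exact hadd Finset.univ
    rw [h1, Finset.sum_eq_single j]
    · intro v _ hv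
      by_cases hvΔ : v ∈ Δ
      · have h2 : D (V v) = 0 := by
          have h3 : u (e ⟨v, hvΔ⟩) = v := by simp [hu]
          have h4 : e ⟨v, hvΔ⟩ ≠ i₀ := by
            intro h
            apply hv
            have := e.injective (h.trans hi₀)
            exact congrArg Subtype.val this
          refine (Matrix.detRowAlternating (R := ℚ) (n := Fin n)).map_eq_zero_of_eq _ ?_ h4
          rw [Function.update_of_ne h4, Function.update_self, h3]
        rw [h2, mul_zero]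
      · rw [hc1 v hvΔ, LinearMap.zero_apply, zero_mul]
    · intro h; exact absurd (Finset.mem_univ j) h
  have hℓlin : ℓ (V j') = c j (V j') * ℓ (V j) := by
    conv_lhs => rw [hc3 (V j')]
    rw [map_sum, Finset.sum_eq_single j]
    · rw [map_smul, smul_eq_mul]
    · intro v _ hv
      rw [map_smul, smul_eq_mul]
      by_cases hvΔ : v ∈ Δ
      · rw [hℓ v (Finset.mem_erase.2 ⟨hv, hvΔ⟩), mul_zero]
      · rw [hc1 v hvΔ, LinearMap.zero_apply, zero_mul]
    · intro h; exact absurd (Finset.mem_univ j) h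
  have hA : Matrix.det (fun i => V (u' i)) = D (V j') := by rw [hD1]
  have hB : Matrix.det (fun i => V (u i)) = D (V j) := by
    conv_lhs => rw [hD2]
  rw [hA, hB, hDlin (V j'), hℓlin, abs_mul, abs_mul]
  ring

/-! ### The degree map on monomials -/

/-- The data of a complete simplicial fan with a generic vector. -/
structure Fan (n : ℕ) (ι : Type) [Fintype ι] [DecidableEq ι] where
  V : ι → Fin n → ℚ
  ρ : Finset ι
  F : Finset (Finset ι)
  hρ : ∀ Δ ∈ F, ρ ⊆ Δ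
  hcard : ∀ Δ ∈ F, Δ.card = n
  hli : ∀ Δ ∈ F, LinearIndependent ℚ (fun i : {i // i ∈ Δ} => V i)
  hwall : ∀ Δ ∈ F, ∀ j ∈ Δ, j ∉ ρ → ∃ j' ∉ Δ, insert j' (Δ.erase j) ∈ F ∧
      (∀ Δ'' ∈ F, Δ.erase j ⊆ Δ'' → Δ'' = Δ ∨ Δ'' = insert j' (Δ.erase j)) ∧
      ∃ ℓ : (Fin n → ℚ) →ₗ[ℚ] ℚ, (∀ i ∈ Δ.erase j, ℓ (V i) = 0) ∧ 0 < ℓ (V j) ∧ ℓ (V j') < 0
  c : Finset ι → ι → ((Fin n → ℚ) →ₗ[ℚ] ℚ)
  hc1 : ∀ Δ ∈ F, ∀ v, v ∉ Δ → c Δ v = 0
  hc2 : ∀ Δ ∈ F, ∀ v ∈ Δ, ∀ w ∈ Δ, c Δ v (V w) = if v = w then 1 else 0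
  hc3 : ∀ Δ ∈ F, ∀ x, x = ∑ v, c Δ v x • V v
  ξ : Fin n → ℚ
  hξ : ∀ Δ ∈ F, ∀ v ∈ Δ, c Δ v ξ ≠ 0

namespace Fan

variable (𝓕 : Fan n ι)

/-- coordinates of the generic vector -/
def t (Δ : Finset ι) (v : ι) : ℚ := 𝓕.c Δ v 𝓕.ξ

/-- the value of the monomial `α` at the coordinates -/
def mon (Δ : Finset ι) (α : ι → ℕ) : ℚ := ∏ v, 𝓕.t Δ v ^ α v

/-- the denominators -/
noncomputable def den (Δ : Finset ι) : ℚ := vol 𝓕.V Δ * ∏ v ∈ Δ \ 𝓕.ρ, 𝓕.t Δ v

/-- the degree map on monomials -/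
noncomputable def X (α : ι → ℕ) : ℚ := ∑ Δ ∈ 𝓕.F, 𝓕.mon Δ α / 𝓕.den Δ

theorem mon_add_single (Δ : Finset ι) (α : ι → ℕ) (v : ι) :
    𝓕.mon Δ (α + Pi.single v 1) = 𝓕.t Δ v * 𝓕.mon Δ α := by
  unfold mon
  have h1 : ∀ w, 𝓕.t Δ w ^ (α + (Pi.single v 1 : ι → ℕ)) w =
      𝓕.t Δ w ^ α w * (if w = v then 𝓕.t Δ v else 1) := by
    intro w
    rw [Pi.add_apply, pow_add]
    by_cases h : w = v
    · subst h; rw [Pi.single_eq_same, pow_one, if_pos rfl]
    · rw [Pi.single_eq_of_ne h, pow_zero, if_neg h]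
  rw [Finset.prod_congr rfl fun w _ => h1 w, Finset.prod_mul_distrib, Finset.prod_ite_eq',
    if_pos (Finset.mem_univ v), mul_comm]

theorem mon_eq_zero {Δ : Finset ι} (hΔ : Δ ∈ 𝓕.F) {α : ι → ℕ} {v : ι} (hv : v ∉ Δ)
    (hα : α v ≠ 0) : 𝓕.mon Δ α = 0 := by
  unfold mon
  refine Finset.prod_eq_zero (Finset.mem_univ v) ?_
  rw [t, 𝓕.hc1 Δ hΔ v hv, LinearMap.zero_apply, zero_pow hα]

/-- multiplication by a linear form -/
theorem lin (ℓ : (Fin n → ℚ) →ₗ[ℚ] ℚ) (α : ι → ℕ) :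
    ℓ 𝓕.ξ * 𝓕.X α = ∑ v, ℓ (𝓕.V v) * 𝓕.X (α + Pi.single v 1) := by
  unfold X
  rw [Finset.mul_sum]
  have h1 : ∀ v, ℓ (𝓕.V v) * ∑ Δ ∈ 𝓕.F, 𝓕.mon Δ (α + Pi.single v 1) / 𝓕.den Δ =
      ∑ Δ ∈ 𝓕.F, ℓ (𝓕.V v) * (𝓕.t Δ v * 𝓕.mon Δ α / 𝓕.den Δ) := by
    intro v
    rw [Finset.mul_sum]
    exact Finset.sum_congr rfl fun Δ _ => by rw [mon_add_single]
  rw [Finset.sum_congr rfl fun v _ => h1 v, Finset.sum_comm]
  refine Finset.sum_congr rfl fun Δ hΔ => ?_
  have h2 : ℓ 𝓕.ξ = ∑ v, 𝓕.t Δ v * ℓ (𝓕.V v) := by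
    conv_lhs => rw [𝓕.hc3 Δ hΔ 𝓕.ξ]
    rw [map_sum]
    exact Finset.sum_congr rfl fun v _ => by rw [map_smul, smul_eq_mul]; rfl
  rw [h2, Finset.sum_mul]
  exact Finset.sum_congr rfl fun v _ => by ring

theorem X_eq_zero_of_forall {α : ι → ℕ} (h : ∀ Δ ∈ 𝓕.F, ∃ v, v ∉ Δ ∧ α v ≠ 0) : 𝓕.X α = 0 := by
  unfold X
  refine Finset.sum_eq_zero fun Δ hΔ => ?_
  obtain ⟨v, hv, hα⟩ := h Δ hΔ
  rw [𝓕.mon_eq_zero hΔ hv hα, zero_div]

/-- indicator exponents -/
def chi (S : Finset ι) : ι → ℕ := fun v => if v ∈ S then 1 else 0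

omit [Fintype ι] in
theorem chi_insert {S : Finset ι} {v : ι} (hv : v ∉ S) :
    chi (insert v S) = chi S + Pi.single v 1 := by
  funext w
  rw [Pi.add_apply, chi, chi]
  by_cases h : w = v
  · subst h
    rw [Pi.single_eq_same, if_pos (Finset.mem_insert_self _ _), if_neg hv]
  · rw [Pi.single_eq_of_ne h, add_zero]
    simp [Finset.mem_insert, h]

theorem mon_chi (Δ : Finset ι) (S : Finset ι) : 𝓕.mon Δ (chi S) = ∏ v ∈ S, 𝓕.t Δ v := by
  unfold mon
  rw [← Finset.prod_subset (Finset.subset_univ S)]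
  · exact Finset.prod_congr rfl fun v hv => by rw [chi, if_pos hv, pow_one]
  · intro v _ hv
    rw [chi, if_neg hv, pow_zero]

theorem t_ne_zero {Δ : Finset ι} (hΔ : Δ ∈ 𝓕.F) {v : ι} (hv : v ∈ Δ) : 𝓕.t Δ v ≠ 0 :=
  𝓕.hξ Δ hΔ v hv

/-- walls -/
theorem X_wall {S : Finset ι} (hS : Disjoint S 𝓕.ρ) (hn : S.card + 𝓕.ρ.card + 1 = n) :
    𝓕.X (chi S) = 0 := by
  by_cases hex : ∃ Δ ∈ 𝓕.F, S ⊆ Δ
  swap
  · push Not at hex
    refine 𝓕.X_eq_zero_of_forall fun Δ hΔ => ?_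
    obtain ⟨v, hv, hv'⟩ := Finset.not_subset.1 (hex Δ hΔ)
    exact ⟨v, hv', by rw [chi, if_pos hv]; exact one_ne_zero⟩
  obtain ⟨Δ, hΔ, hSΔ⟩ := hex
  have hcU : (S ∪ 𝓕.ρ).card = S.card + 𝓕.ρ.card := Finset.card_union_of_disjoint hS
  have hUΔ : S ∪ 𝓕.ρ ⊆ Δ := Finset.union_subset hSΔ (𝓕.hρ Δ hΔ)
  obtain ⟨j, hj, hjU⟩ : ∃ j ∈ Δ, j ∉ S ∪ 𝓕.ρ := by
    by_contra hcon
    push Not at hcon
    have := Finset.card_le_card (show Δ ⊆ S ∪ 𝓕.ρ from hcon)
    rw [hcU, 𝓕.hcard Δ hΔ] at this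
    omega
  have herase : Δ.erase j = S ∪ 𝓕.ρ := by
    symm
    refine Finset.eq_of_subset_of_card_le (fun v hv => Finset.mem_erase.2
      ⟨fun h => hjU (h ▸ hv), hUΔ hv⟩) ?_
    rw [Finset.card_erase_of_mem hj, hcU, 𝓕.hcard Δ hΔ]
    omega
  have hjρ : j ∉ 𝓕.ρ := fun h => hjU (Finset.mem_union_right _ h)
  obtain ⟨j', hj', hΔ', huniq, ℓ, hℓ0, hℓj, hℓj'⟩ := 𝓕.hwall Δ hΔ j hj hjρ
  set Δ' := insert j' (Δ.erase j) with hΔ'def
  have hne : Δ ≠ Δ' := fun h => hj' (h ▸ Finset.mem_insert_self _ _)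
  have hj'U : j' ∉ S ∪ 𝓕.ρ := fun h => hj' (hUΔ h)
  -- the value of one term
  have hterm : ∀ (E : Finset ι) (hE : E ∈ 𝓕.F) (i : ι) (hi : i ∉ S ∪ 𝓕.ρ)
      (hEi : E = insert i (S ∪ 𝓕.ρ)) (hi0 : ℓ (𝓕.V i) ≠ 0),
      𝓕.mon E (chi S) / 𝓕.den E = ℓ (𝓕.V i) / (vol 𝓕.V E * ℓ 𝓕.ξ) := by
    intro E hE i hi hEi hi0
    have h1 : E \ 𝓕.ρ = insert i S := by
      rw [hEi]
      ext v
      simp only [Finset.mem_sdiff, Finset.mem_insert, Finset.mem_union]
      constructor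
      · rintro ⟨h | h | h, h'⟩
        · exact Or.inl h
        · exact Or.inr h
        · exact absurd h h'
      · rintro (h | h)
        · subst h
          exact ⟨Or.inl rfl, fun h' => hi (Finset.mem_union_right _ h')⟩
        · exact ⟨Or.inr (Or.inl h), fun h' => Finset.disjoint_left.1 hS h h'⟩
    have h2 : ℓ 𝓕.ξ = 𝓕.t E i * ℓ (𝓕.V i) := by
      conv_lhs => rw [𝓕.hc3 E hE 𝓕.ξ]
      rw [map_sum, Finset.sum_eq_single i]
      · rw [map_smul, smul_eq_mul]; rfl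
      · intro v _ hv
        rw [map_smul, smul_eq_mul]
        by_cases hvE : v ∈ E
        · rw [hEi] at hvE
          have := Finset.mem_of_mem_insert_of_ne hvE hv
          rw [hℓ0 v (herase ▸ this), mul_zero]
        · rw [𝓕.hc1 E hE v hvE, LinearMap.zero_apply, zero_mul]
      · intro h; exact absurd (Finset.mem_univ i) h
    have hiS : i ∉ S := fun h => hi (Finset.mem_union_left _ h)
    have hti : 𝓕.t E i ≠ 0 := 𝓕.t_ne_zero hE (by rw [hEi]; exact Finset.mem_insert_self _ _)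
    have hpS : ∏ v ∈ S, 𝓕.t E v ≠ 0 := Finset.prod_ne_zero_iff.2 fun v hv =>
      𝓕.t_ne_zero hE (by rw [hEi]; exact Finset.mem_insert_of_mem (Finset.mem_union_left _ hv))
    have hvol : vol 𝓕.V E ≠ 0 := vol_ne_zero _ _ (𝓕.hcard E hE) (𝓕.hli E hE)
    rw [𝓕.mon_chi, den, h1, Finset.prod_insert hiS, h2]
    field_simp
  have hsum : 𝓕.X (chi S) = 𝓕.mon Δ (chi S) / 𝓕.den Δ + 𝓕.mon Δ' (chi S) / 𝓕.den Δ' := by
    unfold X
    have hsub : ({Δ, Δ'} : Finset (Finset ι)) ⊆ 𝓕.F := by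
      intro E hE
      rcases Finset.mem_insert.1 hE with rfl | hE
      · exact hΔ
      · rw [Finset.mem_singleton.1 hE]; exact hΔ'
    rw [← Finset.sum_subset hsub, Finset.sum_pair hne]
    intro E hE hE'
    by_cases hSE : S ⊆ E
    · exfalso
      rcases huniq E hE (herase ▸ Finset.union_subset hSE (𝓕.hρ E hE)) with h | h
      · exact hE' (by rw [h]; exact Finset.mem_insert_self _ _)
      · exact hE' (by rw [h]; exact Finset.mem_insert_of_mem (Finset.mem_singleton_self _))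
    · obtain ⟨v, hv, hv'⟩ := Finset.not_subset.1 hSE
      rw [𝓕.mon_eq_zero hE hv' (by rw [chi, if_pos hv]; exact one_ne_zero), zero_div]
  have hΔi : Δ = insert j (S ∪ 𝓕.ρ) := by rw [← herase, Finset.insert_erase hj]
  have hΔ'i : Δ' = insert j' (S ∪ 𝓕.ρ) := by rw [hΔ'def, herase]
  rw [hsum, hterm Δ hΔ j hjU hΔi hℓj.ne', hterm Δ' hΔ' j' hj'U hΔ'i hℓj'.ne]
  have hadj := vol_adj 𝓕.V Δ (𝓕.hcard Δ hΔ) (𝓕.hli Δ hΔ) j j' hj hj' ℓ hℓ0
  rw [abs_of_pos hℓj, abs_of_neg hℓj'] at hadj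
  have hv1 : vol 𝓕.V Δ ≠ 0 := vol_ne_zero _ _ (𝓕.hcard Δ hΔ) (𝓕.hli Δ hΔ)
  have hv2 : vol 𝓕.V Δ' ≠ 0 := vol_ne_zero _ _ (𝓕.hcard Δ' hΔ') (𝓕.hli Δ' hΔ')
  by_cases hz : ℓ 𝓕.ξ = 0
  · rw [hz]; simp
  · rw [div_add_div _ _ (mul_ne_zero hv1 hz) (mul_ne_zero hv2 hz), div_eq_zero_iff]
    left
    linear_combination (ℓ 𝓕.ξ) * hadj

/-- squarefree monomials of degree less than `n - #ρ` -/
theorem X_squarefree (k : ℕ) : ∀ S : Finset ι, Disjoint S 𝓕.ρ → S.card + 𝓕.ρ.card + 1 + k = n →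
    𝓕.X (chi S) = 0 := by
  induction k with
  | zero => intro S hS hn; exact 𝓕.X_wall hS hn
  | succ k ih =>
    intro S hS hn
    by_cases hex : ∃ Δ ∈ 𝓕.F, S ⊆ Δ
    swap
    · push Not at hex
      refine 𝓕.X_eq_zero_of_forall fun Δ hΔ => ?_
      obtain ⟨v, hv, hv'⟩ := Finset.not_subset.1 (hex Δ hΔ)
      exact ⟨v, hv', by rw [chi, if_pos hv]; exact one_ne_zero⟩
    obtain ⟨Δ, hΔ, hSΔ⟩ := hex
    have hcU : (S ∪ 𝓕.ρ).card = S.card + 𝓕.ρ.card := Finset.card_union_of_disjoint hS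
    have hUΔ : S ∪ 𝓕.ρ ⊆ Δ := Finset.union_subset hSΔ (𝓕.hρ Δ hΔ)
    obtain ⟨j, hj, hjU⟩ : ∃ j ∈ Δ, j ∉ S ∪ 𝓕.ρ := by
      by_contra hcon
      push Not at hcon
      have := Finset.card_le_card (show Δ ⊆ S ∪ 𝓕.ρ from hcon)
      rw [hcU, 𝓕.hcard Δ hΔ] at this
      omega
    have h1 := 𝓕.lin (𝓕.c Δ j) (chi S)
    have h2 : ∑ v, 𝓕.c Δ j (𝓕.V v) * 𝓕.X (chi S + Pi.single v 1) = 0 := by
      refine Finset.sum_eq_zero fun v _ => ?_
      by_cases hvU : v ∈ S ∪ 𝓕.ρ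
      · rw [𝓕.hc2 Δ hΔ j hj v (hUΔ hvU), if_neg (show ¬ j = v from fun h => hjU (h ▸ hvU)),
          zero_mul]
      · have hvS : v ∉ S := fun h => hvU (Finset.mem_union_left _ h)
        have hvρ : v ∉ 𝓕.ρ := fun h => hvU (Finset.mem_union_right _ h)
        rw [← chi_insert hvS, ih (insert v S) ?_ ?_, mul_zero]
        · rw [Finset.disjoint_insert_left]
          exact ⟨hvρ, hS⟩
        · rw [Finset.card_insert_of_notMem hvS]
          omega
    rw [h2] at h1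
    exact (mul_eq_zero.1 h1).resolve_left (𝓕.hξ Δ hΔ j hj)

/-- the support outside `ρ` -/
def sp (α : ι → ℕ) : Finset ι := Finset.univ.filter fun v => α v ≠ 0 ∧ v ∉ 𝓕.ρ

theorem card_sp_le (α : ι → ℕ) : (𝓕.sp α).card ≤ ∑ v, α v := by
  rw [Finset.card_eq_sum_ones]
  refine (Finset.sum_le_sum fun v hv => ?_).trans
    (Finset.sum_le_sum_of_subset (Finset.subset_univ (𝓕.sp α)))
  exact Nat.one_le_iff_ne_zero.2 (Finset.mem_filter.1 hv).2.1

/-- all monomials of degree less than `n - #ρ` -/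
theorem X_low (d : ℕ) : ∀ e : ℕ, ∀ α : ι → ℕ, ∑ v, α v = d → d + 𝓕.ρ.card < n →
    (𝓕.sp α).card + e = d → 𝓕.X α = 0 := by
  induction d with
  | zero =>
    intro e α hα hn _
    have h0 : α = chi ∅ := by
      funext v
      have := (Finset.sum_eq_zero_iff.1 hα) v (Finset.mem_univ v)
      rw [this]; rfl
    rw [h0]
    exact 𝓕.X_squarefree (n - 𝓕.ρ.card - 1) ∅ (Finset.disjoint_empty_left _)
      (by rw [Finset.card_empty]; omega)
  | succ d ihd =>
    intro e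
    induction e with
    | zero =>
      intro α hα hn hs
      have h0 : α = chi (𝓕.sp α) := by
        have h1 : ∑ v, chi (𝓕.sp α) v = ∑ v, α v := by
          rw [hα, ← hs, add_zero, Finset.card_eq_sum_ones, ← Finset.sum_subset
            (Finset.subset_univ (𝓕.sp α))]
          · exact Finset.sum_congr rfl fun v hv => by rw [chi, if_pos hv]
          · intro v _ hv; rw [chi, if_neg hv]
        have h2 : ∀ v ∈ Finset.univ, chi (𝓕.sp α) v ≤ α v := by
          intro v _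
          rw [chi]
          split_ifs with h
          · exact Nat.one_le_iff_ne_zero.2 (Finset.mem_filter.1 h).2.1
          · exact Nat.zero_le _
        funext v
        exact ((Finset.sum_eq_sum_iff_of_le h2).1 h1 v (Finset.mem_univ v)).symm
      rw [h0]
      refine 𝓕.X_squarefree (n - 𝓕.ρ.card - 1 - (d + 1)) _ ?_ (by omega)
      rw [Finset.disjoint_left]
      intro v hv
      exact (Finset.mem_filter.1 hv).2.2
    | succ e ihe =>
      intro α hα hn hs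
      -- a variable which is repeated or in `ρ`
      obtain ⟨w, hw⟩ : ∃ w, (w ∈ 𝓕.ρ ∧ 1 ≤ α w) ∨ (w ∉ 𝓕.ρ ∧ 2 ≤ α w) := by
        by_contra hcon
        push Not at hcon
        have h1 : ∑ v, α v ≤ (𝓕.sp α).card := by
          rw [Finset.card_eq_sum_ones, sp, Finset.sum_filter]
          refine Finset.sum_le_sum fun v _ => ?_
          by_cases hv : v ∈ 𝓕.ρ
          · have := (hcon v).1 hv; omega
          · have := (hcon v).2 hv
            by_cases hv0 : α v = 0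
            · rw [hv0]; exact Nat.zero_le _
            · rw [if_pos ⟨hv0, hv⟩]; omega
        omega
      have hw1 : 1 ≤ α w := by rcases hw with h | h <;> omega
      by_cases hex : ∃ Δ ∈ 𝓕.F, 𝓕.sp α ⊆ Δ
      swap
      · push Not at hex
        refine 𝓕.X_eq_zero_of_forall fun Δ hΔ => ?_
        obtain ⟨v, hv, hv'⟩ := Finset.not_subset.1 (hex Δ hΔ)
        exact ⟨v, hv', (Finset.mem_filter.1 hv).2.1⟩
      obtain ⟨Δ, hΔ, hspΔ⟩ := hex
      have hsupp : ∀ v, α v ≠ 0 → v ∈ Δ := by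
        intro v hv
        by_cases hvρ : v ∈ 𝓕.ρ
        · exact 𝓕.hρ Δ hΔ hvρ
        · exact hspΔ (Finset.mem_filter.2 ⟨Finset.mem_univ v, hv, hvρ⟩)
      have hwΔ : w ∈ Δ := hsupp w (by omega)
      set α' : ι → ℕ := α - Pi.single w 1 with hα'
      have hα'w : α' + Pi.single w 1 = α := by
        funext v
        rw [hα', Pi.add_apply, Pi.sub_apply]
        by_cases h : v = w
        · subst h; rw [Pi.single_eq_same]; omega
        · rw [Pi.single_eq_of_ne h]; omega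
      have hsum' : ∑ v, α' v = d := by
        have : ∑ v, (α' + (Pi.single w 1 : ι → ℕ)) v = d + 1 := by rw [hα'w, hα]
        simp only [Pi.add_apply, Finset.sum_add_distrib, Finset.sum_pi_single', Finset.mem_univ,
          if_true] at this
        omega
      have hX' : 𝓕.X α' = 0 := by
        have hle := 𝓕.card_sp_le α'
        exact ihd (d - (𝓕.sp α').card) α' hsum' (by omega) (by omega)
      have h1 := 𝓕.lin (𝓕.c Δ w) α'
      rw [hX', mul_zero, Finset.sum_eq_single w, 𝓕.hc2 Δ hΔ w hwΔ w hwΔ, if_pos rfl, one_mul,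
        hα'w] at h1
      · exact h1.symm
      · intro v _ hv
        by_cases hvΔ : v ∈ Δ
        · rw [𝓕.hc2 Δ hΔ w hwΔ v hvΔ, if_neg (Ne.symm hv), zero_mul]
        · have hvρ : v ∉ 𝓕.ρ := fun h => hvΔ (𝓕.hρ Δ hΔ h)
          have hvα : α v = 0 := by
            by_contra h; exact hvΔ (hsupp v h)
          have hspv : 𝓕.sp (α' + Pi.single v 1) = insert v (𝓕.sp α) := by
            ext u
            simp only [sp, Finset.mem_filter, Finset.mem_univ, true_and, Finset.mem_insert,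
              Pi.add_apply]
            have h2 : α u = α' u + (Pi.single w 1 : ι → ℕ) u := by rw [← hα'w]; rfl
            by_cases huv : u = v
            · subst huv
              rw [Pi.single_eq_same]
              simp [hvρ]
            · rw [Pi.single_eq_of_ne huv, add_zero]
              by_cases huw : u = w
              · subst huw
                rw [Pi.single_eq_same] at h2
                constructor
                · rintro ⟨h3, h4⟩
                  exact Or.inr ⟨by omega, h4⟩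
                · rintro (h3 | ⟨h3, h4⟩)
                  · exact absurd h3 huv
                  · refine ⟨?_, h4⟩
                    rcases hw with hw | hw
                    · exact absurd hw.1 h4
                    · omega
              · rw [Pi.single_eq_of_ne huw, add_zero] at h2
                rw [h2]
                simp [huv]
          have hsum'' : ∑ u, (α' + (Pi.single v 1 : ι → ℕ)) u = d + 1 := by
            simp only [Pi.add_apply, Finset.sum_add_distrib, Finset.sum_pi_single',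
              Finset.mem_univ, if_true]
            omega
          rw [ihe (α' + Pi.single v 1) hsum'' hn ?_, mul_zero]
          rw [hspv, Finset.card_insert_of_notMem]
          · omega
          · intro h
            exact (Finset.mem_filter.1 h).2.1 hvα
      · intro h; exact absurd (Finset.mem_univ w) h

/-! ### The ring -/

variable (K : Type) [Field K]

/-- the degree map -/
noncomputable def lam : MvPolynomial ι K →ₗ[K] K :=
  (MvPolynomial.basisMonomials ι K).constr K fun α =>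
    if ∑ v, α v + 𝓕.ρ.card = n then ((𝓕.X fun v => α v : ℚ) : K) else 0

theorem lam_monomial (α : ι →₀ ℕ) : 𝓕.lam K (MvPolynomial.monomial α 1) =
    if ∑ v, α v + 𝓕.ρ.card = n then ((𝓕.X fun v => α v : ℚ) : K) else 0 := by
  have h := (MvPolynomial.basisMonomials ι K).constr_basis K (fun α : ι →₀ ℕ =>
    if ∑ v, α v + 𝓕.ρ.card = n then ((𝓕.X fun v => α v : ℚ) : K) else 0) α
  rw [MvPolynomial.coe_basisMonomials] at h
  exact h

/-- the annihilator of the degree map -/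
noncomputable def J : Ideal (MvPolynomial ι K) where
  carrier := {P | ∀ Q, 𝓕.lam K (P * Q) = 0}
  zero_mem' := fun Q => by rw [zero_mul, map_zero]
  add_mem' := fun {P P'} hP hP' Q => by rw [add_mul, map_add, hP Q, hP' Q, add_zero]
  smul_mem' := fun R P hP Q => by
    rw [smul_eq_mul, mul_comm R P, mul_assoc]
    exact hP _

theorem mem_J {P : MvPolynomial ι K} : P ∈ 𝓕.J K ↔ ∀ Q, 𝓕.lam K (P * Q) = 0 := Iff.rfl

theorem mem_J_of {P : MvPolynomial ι K}
    (h : ∀ β : ι →₀ ℕ, 𝓕.lam K (P * MvPolynomial.monomial β 1) = 0) : P ∈ 𝓕.J K := by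
  have h1 : (𝓕.lam K).comp (LinearMap.mulLeft K P) = 0 := by
    refine (MvPolynomial.basisMonomials ι K).ext fun β => ?_
    rw [MvPolynomial.coe_basisMonomials]
    exact h β
  intro Q
  exact LinearMap.congr_fun h1 Q

omit [Fintype ι] [DecidableEq ι] in
theorem prod_X (S : Finset ι) : (∏ i ∈ S, MvPolynomial.X i : MvPolynomial ι K) =
    MvPolynomial.monomial (∑ i ∈ S, Finsupp.single i 1) 1 := by
  rw [MvPolynomial.monomial_sum_one]
  rfl

omit [Fintype ι] in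
theorem coe_sum_single (S : Finset ι) : (fun v => (∑ i ∈ S, Finsupp.single i 1 : ι →₀ ℕ) v) =
    chi S := by
  funext v
  rw [Finsupp.finsetSum_apply, chi]
  simp [Finsupp.single_apply]

variable [CharZero K]

theorem rel_lin (a : Fin n) :
    (∑ i, MvPolynomial.C ((𝓕.V i a : ℚ) : K) * MvPolynomial.X i : MvPolynomial ι K) ∈ 𝓕.J K := by
  refine 𝓕.mem_J_of K fun β => ?_
  rw [Finset.sum_mul, map_sum]
  have h1 : ∀ i, 𝓕.lam K (MvPolynomial.C ((𝓕.V i a : ℚ) : K) * MvPolynomial.X i *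
      MvPolynomial.monomial β 1) = ((𝓕.V i a : ℚ) : K) *
        (if ∑ v, β v + 1 + 𝓕.ρ.card = n then
          ((𝓕.X ((fun v => β v) + Pi.single i 1) : ℚ) : K) else 0) := by
    intro i
    rw [mul_assoc, MvPolynomial.C_mul', map_smul, smul_eq_mul, MvPolynomial.X,
      MvPolynomial.monomial_mul, one_mul, 𝓕.lam_monomial]
    have h2 : ∀ v, (Finsupp.single i 1 + β : ι →₀ ℕ) v = β v + (Pi.single i 1 : ι → ℕ) v := by
      intro v
      rw [Finsupp.add_apply, add_comm, Finsupp.single_apply, Pi.single_apply]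
      by_cases h : i = v
      · subst h; simp
      · rw [if_neg h, if_neg (Ne.symm h)]
    have h3 : ∑ v, (Finsupp.single i 1 + β : ι →₀ ℕ) v = ∑ v, β v + 1 := by
      rw [Finset.sum_congr rfl fun v _ => h2 v, Finset.sum_add_distrib, Finset.sum_pi_single',
        if_pos (Finset.mem_univ i)]
    have h4 : (fun v => (Finsupp.single i 1 + β : ι →₀ ℕ) v) = (fun v => β v) + Pi.single i 1 :=
      funext h2
    rw [h3, h4]
  rw [Finset.sum_congr rfl fun i _ => h1 i]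
  by_cases hd : ∑ v, β v + 1 + 𝓕.ρ.card = n
  · simp only [if_pos hd]
    have h5 := 𝓕.lin (LinearMap.proj a) (fun v => β v)
    have h6 : 𝓕.X (fun v => β v) = 0 := by
      have hle := 𝓕.card_sp_le (fun v => β v)
      refine 𝓕.X_low (∑ v, β v) (∑ v, β v - (𝓕.sp fun v => β v).card) (fun v => β v) rfl
        (by omega) (by omega)
    rw [h6, mul_zero] at h5
    have h7 : ((∑ i, 𝓕.V i a * 𝓕.X ((fun v => β v) + Pi.single i 1) : ℚ) : K) = 0 := by
      have h8 : ∑ i, 𝓕.V i a * 𝓕.X ((fun v => β v) + Pi.single i 1) = 0 := h5.symm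
      rw [h8, Rat.cast_zero]
    rw [← h7, Rat.cast_sum]
    exact Finset.sum_congr rfl fun i _ => by rw [Rat.cast_mul]
  · simp only [if_neg hd, mul_zero, Finset.sum_const_zero]

omit [CharZero K] in
theorem rel_SR (S : Finset ι) (h : ∀ Δ ∈ 𝓕.F, ¬ S ⊆ Δ) :
    (∏ i ∈ S, MvPolynomial.X i : MvPolynomial ι K) ∈ 𝓕.J K := by
  refine 𝓕.mem_J_of K fun β => ?_
  rw [prod_X, MvPolynomial.monomial_mul, one_mul, 𝓕.lam_monomial]
  have h0 : 𝓕.X (fun v => (∑ i ∈ S, Finsupp.single i 1 + β : ι →₀ ℕ) v) = 0 := by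
    refine 𝓕.X_eq_zero_of_forall fun Δ hΔ => ?_
    obtain ⟨v, hv, hv'⟩ := Finset.not_subset.1 (h Δ hΔ)
    refine ⟨v, hv', ?_⟩
    have h1 := congrFun (coe_sum_single (ι := ι) S) v
    rw [chi, if_pos hv] at h1
    rw [Finsupp.add_apply, h1]
    omega
  rw [h0, Rat.cast_zero, ite_self]

omit [CharZero K] in
theorem rel_nil (i : ι) : (MvPolynomial.X i ^ (n + 1) : MvPolynomial ι K) ∈ 𝓕.J K := by
  refine 𝓕.mem_J_of K fun β => ?_
  rw [MvPolynomial.X_pow_eq_monomial, MvPolynomial.monomial_mul, one_mul, 𝓕.lam_monomial, if_neg]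
  intro h
  have h1 : (Finsupp.single i (n + 1) + β : ι →₀ ℕ) i ≤ ∑ v, (Finsupp.single i (n + 1) + β : ι →₀ ℕ) v :=
    Finset.single_le_sum (f := fun v => (Finsupp.single i (n + 1) + β : ι →₀ ℕ) v)
      (fun v _ => Nat.zero_le _) (Finset.mem_univ i)
  rw [Finsupp.add_apply, Finsupp.single_eq_same] at h1
  omega

theorem top_notMem {Δ : Finset ι} (hΔ : Δ ∈ 𝓕.F) :
    (∏ i ∈ Δ \ 𝓕.ρ, MvPolynomial.X i : MvPolynomial ι K) ∉ 𝓕.J K := by
  intro h
  have h1 := h 1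
  rw [mul_one, prod_X, 𝓕.lam_monomial, coe_sum_single] at h1
  have h2 : Finset.univ.sum (chi (Δ \ 𝓕.ρ)) + 𝓕.ρ.card = n := by
    have h4 : ∑ v, chi (Δ \ 𝓕.ρ) v = (Δ \ 𝓕.ρ).card := by
      rw [Finset.card_eq_sum_ones, ← Finset.sum_subset (Finset.subset_univ (Δ \ 𝓕.ρ))]
      · exact Finset.sum_congr rfl fun v hv => by rw [chi, if_pos hv]
      · intro v _ hv; rw [chi, if_neg hv]
    rw [h4, Finset.card_sdiff_of_subset (𝓕.hρ Δ hΔ), 𝓕.hcard Δ hΔ]
    have := Finset.card_le_card (𝓕.hρ Δ hΔ)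
    rw [𝓕.hcard Δ hΔ] at this
    omega
  rw [if_pos h2, Rat.cast_eq_zero] at h1
  have h5 : 𝓕.X (chi (Δ \ 𝓕.ρ)) = 𝓕.mon Δ (chi (Δ \ 𝓕.ρ)) / 𝓕.den Δ := by
    unfold X
    refine Finset.sum_eq_single Δ (fun E hE hne => ?_) (fun h => absurd hΔ h)
    have h6 : ¬ (Δ \ 𝓕.ρ) ⊆ E := by
      intro hsub
      apply hne
      symm
      refine Finset.eq_of_subset_of_card_le ?_ (by rw [𝓕.hcard E hE, 𝓕.hcard Δ hΔ])
      intro v hv
      by_cases hvρ : v ∈ 𝓕.ρ
      · exact 𝓕.hρ E hE hvρ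
      · exact hsub (Finset.mem_sdiff.2 ⟨hv, hvρ⟩)
    obtain ⟨v, hv, hv'⟩ := Finset.not_subset.1 h6
    rw [𝓕.mon_eq_zero hE hv' (by rw [chi, if_pos hv]; exact one_ne_zero), zero_div]
  have hp : ∏ v ∈ Δ \ 𝓕.ρ, 𝓕.t Δ v ≠ 0 := Finset.prod_ne_zero_iff.2 fun v hv =>
    𝓕.t_ne_zero hΔ (Finset.mem_sdiff.1 hv).1
  have hvol : vol 𝓕.V Δ ≠ 0 := vol_ne_zero _ _ (𝓕.hcard Δ hΔ) (𝓕.hli Δ hΔ)
  rw [h5, 𝓕.mon_chi, den] at h1
  exact absurd h1 (div_ne_zero hp (mul_ne_zero hvol hp))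

end Fan

/-- The cohomology ring of the complete simplicial fan. -/
theorem exists_ring (V : ι → Fin n → ℚ)
    (ρ : Finset ι) (𝒱 : Finset (Finset ι))
    (hρ : ∀ Δ ∈ 𝒱, ρ ⊆ Δ) (hcard : ∀ Δ ∈ 𝒱, Δ.card = n)
    (hli : ∀ Δ ∈ 𝒱, LinearIndependent ℚ (fun i : {i // i ∈ Δ} => V i))
    (hwall : ∀ Δ ∈ 𝒱, ∀ j ∈ Δ, j ∉ ρ → ∃ j' ∉ Δ, insert j' (Δ.erase j) ∈ 𝒱 ∧
      (∀ Δ'' ∈ 𝒱, Δ.erase j ⊆ Δ'' → Δ'' = Δ ∨ Δ'' = insert j' (Δ.erase j)) ∧
      ∃ d : Fin n → ℚ, (∀ i ∈ Δ.erase j, ∑ a, d a * V i a = 0) ∧ 0 < ∑ a, d a * V j a ∧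
        ∑ a, d a * V j' a < 0)
    (Δ₀ : Finset ι) (hΔ₀ : Δ₀ ∈ 𝒱) (K : Type) [Field K] [CharZero K] :
    ∃ (H : Type) (_ : CommRing H) (_ : Algebra K H) (z : ι → H),
      (∀ a : Fin n, ∑ i, algebraMap K H (V i a : K) * z i = 0) ∧
      (∀ S : Finset ι, Disjoint S ρ → (∀ Δ ∈ 𝒱, ¬ S ⊆ Δ) → ∏ i ∈ S, z i = 0) ∧
      (∀ i, IsNilpotent (z i)) ∧ ∏ i ∈ Δ₀ \ ρ, z i ≠ 0 := by
  classical
  have hc : ∀ Δ : Finset ι, ∃ c : ι → ((Fin n → ℚ) →ₗ[ℚ] ℚ), Δ ∈ 𝒱 → (∀ v, v ∉ Δ → c v = 0) ∧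
      (∀ v ∈ Δ, ∀ w ∈ Δ, c v (V w) = if v = w then 1 else 0) ∧ ∀ x, x = ∑ v, c v x • V v := by
    intro Δ
    by_cases h : Δ ∈ 𝒱
    · obtain ⟨c, hc⟩ := exists_coord V Δ (hcard Δ h) (hli Δ h)
      exact ⟨c, fun _ => hc⟩
    · exact ⟨0, fun h' => absurd h' h⟩
  choose c hc using hc
  obtain ⟨ξ, hξ⟩ : ∃ ξ : Fin n → ℚ, ∀ Δ ∈ 𝒱, ∀ v ∈ Δ, c Δ v ξ ≠ 0 := by
    obtain ⟨ξ, hξ⟩ := Module.Dual.exists_forall_ne_zero_of_forall_exists (K := ℚ)
      (M := Fin n → ℚ) (ι := {p : Finset ι × ι // p.1 ∈ 𝒱 ∧ p.2 ∈ p.1})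
      (fun p => c p.1.1 p.1.2) (fun p => ⟨V p.1.2, by
        rw [(hc p.1.1 p.2.1).2.1 p.1.2 p.2.2 p.1.2 p.2.2, if_pos rfl]
        exact one_ne_zero⟩)
    exact ⟨ξ, fun Δ hΔ v hv => hξ ⟨(Δ, v), hΔ, hv⟩⟩
  let 𝓕 : Fan n ι :=
    { V := V
      ρ := ρ
      F := 𝒱
      hρ := hρ
      hcard := hcard
      hli := hli
      hwall := by
        intro Δ hΔ j hj hjρ
        obtain ⟨j', hj', h1, h2, d, hd0, hdj, hdj'⟩ := hwall Δ hΔ j hj hjρ
        refine ⟨j', hj', h1, h2, ∑ a, d a • LinearMap.proj a, ?_, ?_, ?_⟩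
        · intro i hi
          rw [LinearMap.sum_apply]
          exact hd0 i hi
        · rw [LinearMap.sum_apply]
          exact hdj
        · rw [LinearMap.sum_apply]
          exact hdj'
      c := c
      hc1 := fun Δ hΔ => (hc Δ hΔ).1
      hc2 := fun Δ hΔ => (hc Δ hΔ).2.1
      hc3 := fun Δ hΔ => (hc Δ hΔ).2.2
      ξ := ξ
      hξ := hξ }
  refine ⟨MvPolynomial ι K ⧸ 𝓕.J K, inferInstance, inferInstance,
    fun i => Ideal.Quotient.mk (𝓕.J K) (MvPolynomial.X i), ?_, ?_, ?_, ?_⟩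
  · intro a
    have h1 := Ideal.Quotient.eq_zero_iff_mem.2 (𝓕.rel_lin K a)
    rw [map_sum] at h1
    rw [← h1]
    refine Finset.sum_congr rfl fun i _ => ?_
    rw [map_mul]
    rfl
  · intro S _ hS
    have h1 := Ideal.Quotient.eq_zero_iff_mem.2 (𝓕.rel_SR K S hS)
    rwa [map_prod] at h1
  · intro i
    refine ⟨n + 1, ?_⟩
    have h1 := Ideal.Quotient.eq_zero_iff_mem.2 (𝓕.rel_nil K i)
    rwa [map_pow] at h1
  · intro h
    apply 𝓕.top_notMem K hΔ₀
    rw [← Ideal.Quotient.eq_zero_iff_mem, map_prod]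
    exact h

end Pool.Agent.helper11.NSR
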